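import Pool.Agent.Q45.TL.TStep

/-!
# The base case
-/

set_option autoImplicit false
set_option linter.all false

open Polynomial IsDedekindDomain WithZero
open scoped Classical

namespace Pool.Agent.Q45.TL

open Pool.Agent.Q45.TW (cst ff ff_monic ff_natDegree ff_map)
open Pool.Agent.Y160.SE (IsPw)
open Pool.Agent.Q45.TT (FS FS.base exists_alg exists_ic exists_above ff_alg irr_base sep_ff Ram RamK
  exists_irr val_under exists_sub)

theorem ideal_pw {p : ℕ} (hp : p ≠ 0) {R : Type} [CommRing R] [IsDedekindDomain R] {r : R}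
    (hr : r ≠ 0) (hev : ∀ v : HeightOneSpectrum R, IsPw p (v.intValuation r)) :
    ∃ J : Ideal R, Ideal.span {r} = J ^ p := by
  have hI : Ideal.span {r} ≠ 0 := fun h => hr (Ideal.span_singleton_eq_bot.1 h)
  have h1 := Ideal.finprod_heightOneSpectrum_factorization hI
  have h2 := Ideal.hasFiniteMulSupport hI
  have hcnt : ∀ v : HeightOneSpectrum R, ∃ m : ℕ,
      (Associates.mk v.asIdeal).count (Associates.mk (Ideal.span {r} : Ideal R)).factors = m * p := by
    intro v
    obtain ⟨δ, hδ⟩ := hev v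
    rw [v.intValuation_if_neg hr] at hδ
    have hδ0 : δ ≠ 0 := by
      rintro rfl
      rw [zero_pow hp] at hδ
      exact exp_ne_zero hδ
    obtain ⟨m, hm⟩ : ∃ m : ℤ, δ = exp m := ⟨_, (exp_log hδ0).symm⟩
    rw [hm, ← exp_nsmul] at hδ
    have h3 := exp_injective hδ
    rw [nsmul_eq_mul] at h3
    have h4 : ((Associates.mk v.asIdeal).count
        (Associates.mk (Ideal.span {r} : Ideal R)).factors : ℤ) = (p : ℤ) * (-m) := by
      linear_combination -h3
    have h5 : 0 ≤ -m := by
      by_contra hneg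
      push Not at hneg
      have h6 : (p : ℤ) * (-m) < 0 := mul_neg_of_pos_of_neg (by exact_mod_cast Nat.pos_of_ne_zero hp)
        hneg
      rw [← h4] at h6
      exact absurd (Int.natCast_nonneg _) (not_le.2 h6)
    refine ⟨(-m).toNat, ?_⟩
    have h6 : (((-m).toNat : ℕ) : ℤ) = -m := Int.toNat_of_nonneg h5
    have h7 : ((((-m).toNat * p : ℕ)) : ℤ) = (p : ℤ) * (-m) := by
      push_cast
      rw [h6]
      ring
    exact_mod_cast h4.trans h7.symm
  choose m hm using hcnt
  refine ⟨∏ᶠ v : HeightOneSpectrum R, v.asIdeal ^ m v, ?_⟩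
  have h3 : ∀ v : HeightOneSpectrum R, v.maxPowDividing (Ideal.span {r}) = (v.asIdeal ^ m v) ^ p := by
    intro v
    rw [← pow_mul, ← hm]
    rfl
  rw [finprod_pow]
  · conv_lhs => rw [← h1]
    exact finprod_congr h3
  · refine Set.Finite.subset h2 fun v hv => ?_
    rw [Function.mem_mulSupport] at hv ⊢
    intro h4
    apply hv
    rw [h3] at h4
    exact (pow_eq_one_iff.1 h4).resolve_right hp

/-- Elements with valuations divisible by `p` in the field of fractions of a polynomial ring. -/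
theorem even_rat {p : ℕ} (hp : p ≠ 0) {k R L : Type} [Field k] [CommRing R] [IsDedekindDomain R]
    [Field L] [Algebra R L] [IsFractionRing R L] (e : k[X] ≃+* R) {z : L} (hz : z ≠ 0)
    (hev : ∀ v : HeightOneSpectrum R, IsPw p (v.valuation L z)) :
    ∃ (c : k) (w : L), c ≠ 0 ∧ w ≠ 0 ∧ z = algebraMap R L (e (C c)) * w ^ p := by
  haveI : IsPrincipalIdealRing R := IsPrincipalIdealRing.of_surjective e.toRingHom e.surjective
  obtain ⟨a, b, hb, rfl⟩ := IsFractionRing.div_surjective (A := R) z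
  have hb0 : b ≠ 0 := nonZeroDivisors.ne_zero hb
  have ha0 : a ≠ 0 := by
    rintro rfl
    rw [map_zero, zero_div] at hz
    exact hz rfl
  have hbL : algebraMap R L b ≠ 0 := fun h =>
    hb0 (IsFractionRing.injective R L (by rw [h, map_zero]))
  have he : algebraMap R L (a * b ^ (p - 1)) =
      algebraMap R L a / algebraMap R L b * algebraMap R L b ^ p := by
    obtain ⟨q, rfl⟩ : ∃ q, p = q + 1 := ⟨p - 1, by omega⟩
    rw [map_mul, map_pow, Nat.add_sub_cancel, pow_succ]
    field_simp
  have hab : a * b ^ (p - 1) ≠ 0 := mul_ne_zero ha0 (pow_ne_zero _ hb0)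
  obtain ⟨J, hJ⟩ := ideal_pw hp hab fun v => by
    have h1 : v.valuation L (algebraMap R L (a * b ^ (p - 1))) = v.intValuation (a * b ^ (p - 1)) :=
      v.valuation_of_algebraMap _
    rw [← h1, he, map_mul, map_pow]
    exact (hev v).mul (IsPw.self _)
  obtain ⟨j, hj⟩ := (IsPrincipalIdealRing.principal J).principal
  have hj' : J = Ideal.span {j} := hj
  rw [hj', Ideal.span_singleton_pow, Ideal.span_singleton_eq_span_singleton] at hJ
  obtain ⟨ε, hε⟩ := hJ.symm
  obtain ⟨c, hc, hc1⟩ := Polynomial.isUnit_iff.1 (ε.isUnit.map e.symm)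
  have hj0 : j ≠ 0 := by
    rintro rfl
    rw [zero_pow hp, zero_mul] at hε
    exact hab hε.symm
  refine ⟨c, algebraMap R L j / algebraMap R L b, hc.ne_zero, div_ne_zero (fun h => hj0
    (IsFractionRing.injective R L (by rw [h, map_zero]))) hbL, ?_⟩
  have h3 : e (C c) = (ε : R) := by
    rw [hc1]
    exact e.apply_symm_apply _
  rw [h3, div_pow, ← mul_div_assoc, eq_div_iff (pow_ne_zero _ hbL), ← he, ← hε, map_mul, map_pow,
    mul_comm]

section base

variable {p : ℕ} {k : Type} [Field k] {g : k[X]} {ζ : k}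

/-- The base case. -/
theorem Triv.base (hp : p.Prime) (hg : g.Monic) (hpos : 0 < g.natDegree)
    (hcop : p.Coprime g.natDegree) {K : Type} [Field K] [Algebra k[X] K]
    (hK : IsFractionRing k[X] K) : Triv p g K := by
  intro L _ _ _ _ θ hθ htop R _ _ _ _ _ _ _ z hz hev hno
  have hirr : Irreducible (ff g K) := irr_base hg hpos hK
  haveI : FiniteDimensional K L := TW.fin_of (ff_monic hg hpos) hθ htop
  obtain ⟨e, he1⟩ := TT.ring_base hg hpos hK hθ htop R
  obtain ⟨c, w, hc, hw, rfl⟩ := even_rat hp.ne_zero e hz hev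
  obtain ⟨u, hu⟩ := hno
  have h1 : algebraMap R L (e (C c)) = algebraMap K L (algebraMap k[X] K (C c)) := by
    rw [he1, ← IsScalarTower.algebraMap_apply k[X] R L, ← IsScalarTower.algebraMap_apply k[X] K L]
  have hcK : algebraMap k[X] K (C c) ≠ 0 := by
    intro h0
    rw [h0, map_zero] at h1
    rw [h1, zero_mul] at hz
    exact hz rfl
  have h3 : Module.finrank K L = g.natDegree := by
    rw [TW.finrank_of hirr (ff_monic hg hpos) hθ htop, ff_natDegree hg hpos]
  rw [h1, map_mul, Algebra.norm_algebraMap, h3, map_pow] at hu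
  set κ := algebraMap k[X] K (C c) with hκ
  set n := g.natDegree with hn
  have hNw : Algebra.norm K w ≠ 0 := (Algebra.norm_ne_zero_iff).2 hw
  -- Bezout
  have hb : (n : ℤ) * n.gcdA p + p * n.gcdB p = 1 := by
    have h4 := Nat.gcd_eq_gcd_ab n p
    rw [hcop.symm] at h4
    exact_mod_cast h4.symm
  have h4 : κ ^ n = (u / Algebra.norm K w) ^ p := by
    rw [div_pow, ← hu, mul_div_cancel_right₀ _ (pow_ne_zero _ hNw)]
  have h5 : κ = ((u / Algebra.norm K w) ^ (n.gcdA p) * κ ^ (n.gcdB p)) ^ p := by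
    rw [mul_pow, ← zpow_natCast, ← zpow_natCast (κ ^ _), ← zpow_mul, ← zpow_mul,
      mul_comm (n.gcdA p), zpow_mul, zpow_natCast, ← h4, ← zpow_natCast, ← zpow_mul,
      ← zpow_add₀ hcK, mul_comm (n.gcdB p), hb, zpow_one]
  refine ⟨algebraMap K L ((u / Algebra.norm K w) ^ (n.gcdA p) * κ ^ (n.gcdB p)) * w, ?_⟩
  rw [h1, mul_pow, ← map_pow, ← h5]

/-- **Elements with valuations divisible by `p` whose norm is a `p`-th power are `p`-th powers.** -/
theorem IsTower.triv (hp : p.Prime) (hζ : IsPrimitiveRoot ζ p) (hg : g.Monic)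
    (hpos : 0 < g.natDegree) (hcop : p.Coprime g.natDegree) (hd : derivative g ≠ 0) {K : Type}
    [Field K] [Algebra k[X] K] {m : ℕ} {s : ℕ → K} (h : IsTower p k K m s) (hram : RamK g K) :
    Triv p g K := by
  refine IsTower.ind hp hζ (M := fun K _ _ => RamK g K → Triv p g K)
    (fun K _ _ hK _ => Triv.base hp hg hpos hcop hK) ?_ m K s h hram
  intro K' K _ _ _ _ _ _ D s hq _ htw ih hram
  obtain ⟨m', s', htw⟩ := htw
  have hfs' : FS k K' := htw.fs hp hζ
  exact Triv.step hp hζ hg hpos hcop hd hq htw hram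
    (ih (hram.down hfs' (hfs'.trans hq.fin hq.separable)))

end base

end Pool.Agent.Q45.TL
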