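import Pool.Agent.Q45.TL.Base

/-!
# Integral derivations at the unramified places
-/

set_option autoImplicit false
set_option linter.all false

open Polynomial IsDedekindDomain WithZero
open scoped Classical TensorProduct

namespace Pool.Agent.Q45.TL

open Pool.Agent.Q45.TW (cst ff ff_monic ff_natDegree ff_map)
open Pool.Agent.Y160.SE (IsPw)
open Pool.Agent.Q45.TT (FS FS.base exists_alg exists_ic exists_above ff_alg irr_base sep_ff Ram RamK
  exists_irr val_under exists_sub HasDer hasDer_base exists_ext int_of_ring)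

section der

variable {p : ℕ} {k : Type} [Field k] {ζ : k}

theorem hasDer_step (hp : p.Prime) (hζ : IsPrimitiveRoot ζ p) {K' K : Type} [Field K'] [Field K]
    [Algebra k[X] K'] [Algebra k[X] K] [Algebra K' K] [IsScalarTower k[X] K' K] {D₀ : K'} {s : K}
    (hq : IsKum p (cst k K' ζ) D₀ s) (hfs' : FS k K') (ih : HasDer k K') : HasDer k K := by
  intro A _ _ _ _ _ _ _ v hunr
  have hp0 := hp.ne_zero
  have hfs : FS k K := hfs'.trans hq.fin hq.separable
  obtain ⟨A', a1, a2, a3, a4, a5⟩ := exists_ic (k := k) K'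
  obtain ⟨φ, hφ1, hφ2⟩ := exists_alg (k := k) (K' := K') (K := K) A' A
  letI : Algebra A' A := φ.toAlgebra
  haveI : IsScalarTower k[X] A' A := IsScalarTower.of_algebraMap_eq fun p => (hφ2 p).symm
  haveI := hfs.finite A
  haveI := hfs'.ded A'
  haveI := hfs'.frac A'
  haveI := hfs'.finite A'
  haveI : Module.Finite A' A := Module.Finite.of_restrictScalars_finite k[X] A' A
  haveI : Algebra.IsIntegral A' A := Algebra.IsIntegral.of_finite A' A
  haveI : Algebra.IsIntegral k[X] A' := Algebra.IsIntegral.of_finite k[X] A'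
  haveI : Module.IsTorsionFree A' A := by
    rw [Module.isTorsionFree_iff_algebraMap_injective]
    exact TT.tf_of (K' := K') (K := K) (IsFractionRing.injective A' K') hφ1
  letI : Algebra A' K := ((algebraMap K' K).comp (algebraMap A' K')).toAlgebra
  haveI : IsScalarTower A' K' K := IsScalarTower.of_algebraMap_eq fun _ => rfl
  haveI : IsScalarTower A' A K := IsScalarTower.of_algebraMap_eq fun a => (hφ1 a).symm
  set v' := v.under A' with hv'
  have hle : v'.asIdeal.map (algebraMap A' A) ≤ v.asIdeal := by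
    rw [Ideal.map_le_iff_le_comap]
    exact le_rfl
  have hunr' : ∀ b : k[X], Irreducible b → algebraMap k[X] A' b ∉ v'.asIdeal ^ 2 := by
    intro b hb hbv
    refine hunr b hb ?_
    rw [IsScalarTower.algebraMap_apply k[X] A' A]
    have h3 := Ideal.mem_map_of_mem (algebraMap A' A) hbv
    rw [Ideal.map_pow] at h3
    exact Ideal.pow_right_mono hle 2 h3
  have hev : IsPw p (v'.valuation K' D₀) := by
    by_contra hodd
    obtain ⟨b, -, hb, hbv⟩ := exists_irr (hfs'.injB A') v'
    refine hunr b hb ?_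
    rw [IsScalarTower.algebraMap_apply k[X] A' A]
    exact ram_of_odd (K := K') (L := K) hq v hodd (Ideal.mem_map_of_mem _ hbv)
  obtain ⟨D', hD'1, hD'2⟩ := ih A' v' hunr'
  haveI := hq.fin
  haveI := hq.separable
  haveI : Algebra.FormallyEtale K' K := Algebra.FormallyEtale.of_isSeparable K' K
  obtain ⟨D, hD⟩ := exists_ext ((Algebra.linearMap K' K).compDer D')
  have hD1 : ∀ x : K', D (algebraMap K' K x) = algebraMap K' K (D' x) := fun x => by
    rw [hD]
    rfl
  refine ⟨D, fun p => ?_, int_of_ring v D fun r => ?_⟩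
  · rw [IsScalarTower.algebraMap_apply k[X] K' K, hD1, hD'1,
      ← IsScalarTower.algebraMap_apply k[X] K' K]
  -- a unit root
  obtain ⟨d, c, hc, hcd, hdv⟩ := unit_rep hp0 v' hq.ne_zero hev
  have hcK : algebraMap K' K c ≠ 0 := (_root_.map_ne_zero _).2 hc
  obtain ⟨s₁, hs₁⟩ : ∃ s₁ : K, s₁ = algebraMap K' K c * s := ⟨_, rfl⟩
  have hs₁2 : s₁ ^ p = algebraMap K' K (algebraMap A' K' d) := by
    rw [hs₁, mul_pow, hq.pow, ← map_pow, ← map_mul, mul_comm, hcd]
  have hval : ∀ x : K', v'.valuation K' x ≤ 1 → v.valuation K (algebraMap K' K x) ≤ 1 := by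
    intro x hx
    rw [val_under (A := A'), ← hv']
    exact pow_le_one' hx _
  have hdK : v'.valuation K' (algebraMap A' K' d) = 1 := by
    rw [v'.valuation_of_algebraMap, hdv]
  have hs₁v : v.valuation K s₁ = 1 := by
    have h1 : v.valuation K s₁ ^ p = 1 := by
      rw [← map_pow, hs₁2, val_under (A := A'), ← hv', hdK, one_pow]
    exact (pow_eq_one_iff.1 h1).resolve_right hp0
  have hpA : v.valuation K (p : K) = 1 := by
    have h3 : (p : K) = algebraMap A K (p : A) := by rw [map_natCast]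
    rw [h3, v.valuation_of_algebraMap, v.intValuation_eq_one_iff]
    intro h4
    exact v.isPrime.ne_top (Ideal.eq_top_of_isUnit_mem _ h4 (isUnit_p hp hζ A))
  have hDs : v.valuation K (D s₁) ≤ 1 := by
    have h1 : (p : K) * s₁ ^ (p - 1) * D s₁ = algebraMap K' K (D' (algebraMap A' K' d)) := by
      rw [← hD1, ← hs₁2, Derivation.leibniz_pow, nsmul_eq_mul, smul_eq_mul, mul_assoc]
    have h3 := congrArg (v.valuation K) h1
    rw [map_mul, map_mul, map_pow, hpA, hs₁v, one_pow, one_mul, one_mul] at h3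
    rw [h3]
    exact hval _ (hD'2 _ hdK.le)
  have hDsi : ∀ i : ℕ, v.valuation K (D (s₁ ^ i)) ≤ 1 := by
    intro i
    rw [Derivation.leibniz_pow, nsmul_eq_mul, smul_eq_mul, map_mul, map_mul, map_pow, hs₁v, one_pow,
      one_mul]
    refine mul_le_one' ?_ hDs
    have h3 : ((i : ℕ) : K) = algebraMap A K (i : A) := by rw [map_natCast]
    rw [h3]
    exact v.valuation_le_one _
  -- the coordinates
  obtain ⟨τ, hτ, -, -, hpp, hfix⟩ := hq.exists_tau
  obtain ⟨ψ, hψ1, -, -⟩ := exists_restr (k := k) (τ : K ≃+* K) (fun q => by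
    show τ (algebraMap k[X] K q) = _
    rw [IsScalarTower.algebraMap_apply k[X] K' K, AlgEquiv.commutes]) A
  obtain ⟨b, hb, hbS⟩ := hq.comps hτ hpp hfix (algebraMap A K).range (by
    rintro _ ⟨a, rfl⟩
    exact ⟨ψ a, hψ1 a⟩) ⟨cst k A ζ, by
      show algebraMap A K (algebraMap k[X] A (C ζ)) = algebraMap K' K (algebraMap k[X] K' (C ζ))
      rw [← IsScalarTower.algebraMap_apply k[X] A K, ← IsScalarTower.algebraMap_apply k[X] K' K]⟩ (by
      obtain ⟨e, he⟩ := isUnit_p hp hζ A
      refine ⟨((e⁻¹ : Aˣ) : A), ?_⟩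
      have h1 : algebraMap A K ((e⁻¹ : Aˣ) : A) * (p : K) = 1 := by
        have h3 : (p : K) = algebraMap A K (p : A) := by rw [map_natCast]
        rw [h3, ← he, ← map_mul, Units.inv_mul, map_one]
      exact eq_inv_of_mul_eq_one_left h1) (x := algebraMap A K r) ⟨r, rfl⟩
  have hv'int : ∀ x : K', IsIntegral k[X] x → v'.valuation K' x ≤ 1 := by
    intro x hx
    obtain ⟨y, rfl⟩ := (IsIntegralClosure.isIntegral_iff (A := A') (R := k[X])).1 hx
    exact v'.valuation_le_one y
  have hbi : ∀ i < p, v'.valuation K' (b i / c ^ i) ≤ 1 := by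
    intro i hi
    obtain ⟨a, ha⟩ := hbS i hi
    have h1 : (b i / c ^ i) ^ p * (algebraMap A' K' d) ^ i = b i ^ p * D₀ ^ i := by
      rw [← hcd, div_pow, mul_pow, ← pow_mul, ← pow_mul, mul_comm i p]
      field_simp
    have h3 : algebraMap K' K (b i ^ p * D₀ ^ i) = algebraMap A K (a ^ p) := by
      rw [map_pow (algebraMap A K), ha, map_mul, map_pow, map_pow, ← hq.pow, mul_pow, ← pow_mul,
        ← pow_mul, mul_comm i p]
    have h4 : IsIntegral k[X] (b i ^ p * D₀ ^ i) := by
      have h5 : IsIntegral k[X] (algebraMap K' K (b i ^ p * D₀ ^ i)) := by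
        rw [h3]
        exact (IsIntegralClosure.isIntegral k[X] K _).algebraMap
      exact (isIntegral_algebraMap_iff (algebraMap K' K).injective).1 h5
    have h5 := hv'int _ h4
    rw [← h1, map_mul, map_pow, map_pow, hdK, one_pow, mul_one] at h5
    exact (pow_le_one_iff hp0).1 h5
  have hr' : ∀ i, algebraMap K' K (b i) * s ^ i = algebraMap K' K (b i / c ^ i) * s₁ ^ i := by
    intro i
    rw [hs₁, map_div₀, map_pow, mul_pow]
    field_simp
  rw [hb, map_sum]
  refine Valuation.map_sum_le _ fun i hi => ?_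
  have hi' := Finset.mem_range.1 hi
  rw [hr', Derivation.leibniz, hD1, smul_eq_mul, smul_eq_mul]
  refine (Valuation.map_add _ _ _).trans (max_le ?_ ?_)
  · rw [map_mul]
    exact mul_le_one' (hval _ (hbi i hi')) (hDsi i)
  · rw [map_mul, map_pow, hs₁v, one_pow, one_mul]
    exact hval _ (hD'2 _ (hbi i hi'))

theorem IsTower.hasDer (hp : p.Prime) (hζ : IsPrimitiveRoot ζ p) {K : Type} [Field K]
    [Algebra k[X] K] {m : ℕ} {s : ℕ → K} (h : IsTower p k K m s) : HasDer k K := by
  refine IsTower.ind hp hζ (M := fun K _ _ => HasDer k K) (fun K _ _ hK => hasDer_base hK) ?_ m K s h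
  intro K' K _ _ _ _ _ _ D s hq _ htw ih
  obtain ⟨m', s', htw⟩ := htw
  exact hasDer_step hp hζ hq (htw.fs hp hζ) ih

end der

end Pool.Agent.Q45.TL
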