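import Pool.Agent.Q45.TT.Fin

/-!
# Cyclic extensions of prime degree
-/

set_option autoImplicit false
set_option linter.all false

open Polynomial
open scoped Classical

namespace Pool.Agent.Q45.TL

open Pool.Agent.Q45 (TW.fin_of TW.sep_of TW.finrank_of TW.exists_aeval)

/-- The field `K` is generated over `K'` by a `p`-th root `s` of `D`, which is not in `K'`. -/
structure IsKum (p : ℕ) {K' K : Type} [Field K'] [Field K] [Algebra K' K] (ζ D : K') (s : K) :
    Prop where
  prime : p.Prime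
  root : IsPrimitiveRoot ζ p
  pow : s ^ p = algebraMap K' K D
  nmem : ∀ x : K', algebraMap K' K x ≠ s
  top : IntermediateField.adjoin K' {s} = ⊤

section kum

variable {p : ℕ} {K K' : Type} [Field K'] [Field K] [Algebra K' K] {ζ D : K'} {s : K}

theorem IsKum.ne (h : IsKum p ζ D s) : (p : K') ≠ 0 := by
  haveI : NeZero p := ⟨h.prime.ne_zero⟩
  exact h.root.neZero'.ne

theorem IsKum.not_pow (h : IsKum p ζ D s) (b : K') : b ^ p ≠ D := by
  intro hb
  haveI : NeZero p := ⟨h.prime.ne_zero⟩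
  rcases eq_or_ne b 0 with rfl | hb0
  · rw [zero_pow h.prime.ne_zero] at hb
    have h1 := h.pow
    rw [← hb, map_zero] at h1
    exact h.nmem 0 (by rw [map_zero, (pow_eq_zero_iff h.prime.ne_zero).1 h1])
  · have hb1 : algebraMap K' K b ≠ 0 := (_root_.map_ne_zero _).2 hb0
    have h1 : (s / algebraMap K' K b) ^ p = 1 := by
      rw [div_pow, h.pow, ← hb, map_pow]
      exact div_self (pow_ne_zero _ hb1)
    have h3 : IsPrimitiveRoot (algebraMap K' K ζ) p :=
      h.root.map_of_injective (algebraMap K' K).injective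
    obtain ⟨i, -, hi⟩ := h3.eq_pow_of_pow_eq_one h1
    refine h.nmem (ζ ^ i * b) ?_
    rw [map_mul, map_pow, hi]
    exact div_mul_cancel₀ _ hb1

theorem IsKum.ne_zero (h : IsKum p ζ D s) : D ≠ 0 := fun h0 => h.not_pow 0 (by
  rw [h0, zero_pow h.prime.ne_zero])

theorem IsKum.s_ne (h : IsKum p ζ D s) : s ≠ 0 := fun h0 => h.nmem 0 (by rw [h0, map_zero])

theorem IsKum.irr (h : IsKum p ζ D s) : Irreducible (X ^ p - C D : K'[X]) :=
  X_pow_sub_C_irreducible_of_prime h.prime h.not_pow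

theorem mon {p : ℕ} (hp : p ≠ 0) {A : Type} [CommRing A] [Nontrivial A] (D : A) :
    (X ^ p - C D : A[X]).Monic := monic_X_pow_sub_C _ hp

theorem IsKum.eval (h : IsKum p ζ D s) : aeval s (X ^ p - C D : K'[X]) = 0 := by
  rw [map_sub, map_pow, aeval_X, aeval_C, h.pow, sub_self]

theorem IsKum.sep (h : IsKum p ζ D s) : (X ^ p - C D : K'[X]).Separable :=
  separable_X_pow_sub_C D h.ne h.ne_zero

theorem IsKum.fin (h : IsKum p ζ D s) : FiniteDimensional K' K :=
  TW.fin_of (mon h.prime.ne_zero D) h.eval h.top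

theorem IsKum.separable (h : IsKum p ζ D s) : Algebra.IsSeparable K' K :=
  TW.sep_of h.sep h.eval h.top

theorem IsKum.finrank (h : IsKum p ζ D s) : Module.finrank K' K = p := by
  rw [TW.finrank_of h.irr (mon h.prime.ne_zero D) h.eval h.top, natDegree_X_pow_sub_C]

theorem IsKum.rootK (h : IsKum p ζ D s) : IsPrimitiveRoot (algebraMap K' K ζ) p :=
  h.root.map_of_injective (algebraMap K' K).injective

/-- The generator of the Galois group. -/
theorem IsKum.exists_tau (h : IsKum p ζ D s) : ∃ τ : K ≃ₐ[K'] K, τ s = algebraMap K' K ζ * s ∧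
    IsGalois K' K ∧ (∀ σ : K ≃ₐ[K'] K, σ ∈ Subgroup.zpowers τ) ∧ τ ^ p = 1 ∧
    ∀ x : K, τ x = x → ∃ a : K', algebraMap K' K a = x := by
  haveI := h.fin
  haveI : NeZero p := ⟨h.prime.ne_zero⟩
  have hint : IsIntegral K' s := ⟨_, mon h.prime.ne_zero D, h.eval⟩
  have htop' : Algebra.adjoin K' {s} = ⊤ := by
    have h3 := IntermediateField.adjoin_simple_toSubalgebra_of_isAlgebraic hint.isAlgebraic
    rw [h.top] at h3
    exact h3.symm
  have hmin : minpoly K' s = X ^ p - C D :=
    (minpoly.eq_of_irreducible_of_monic h.irr h.eval (mon h.prime.ne_zero D)).symm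
  have hroot : aeval (algebraMap K' K ζ * s) (minpoly K' (PowerBasis.ofAdjoinEqTop' hint htop').gen)
      = 0 := by
    rw [PowerBasis.ofAdjoinEqTop'_gen, hmin, map_sub, map_pow, aeval_X, aeval_C, mul_pow, h.pow,
      ← map_pow, h.root.pow_eq_one, map_one, one_mul, sub_self]
  let τ₀ : K →ₐ[K'] K := (PowerBasis.ofAdjoinEqTop' hint htop').lift _ hroot
  have hτ₀ : τ₀ s = algebraMap K' K ζ * s := by
    have h3 := (PowerBasis.ofAdjoinEqTop' hint htop').lift_gen _ hroot
    rw [PowerBasis.ofAdjoinEqTop'_gen] at h3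
    exact h3
  let τ : K ≃ₐ[K'] K := AlgEquiv.ofBijective τ₀ (Algebra.IsAlgebraic.algHom_bijective τ₀)
  have hτ : τ s = algebraMap K' K ζ * s := hτ₀
  have hpow : ∀ j : ℕ, (τ ^ j) s = algebraMap K' K ζ ^ j * s := by
    intro j
    induction j with
    | zero => rw [pow_zero, pow_zero, one_mul]; rfl
    | succ j ih =>
      rw [pow_succ', AlgEquiv.mul_apply, ih, map_mul, map_pow, AlgEquiv.commutes, hτ]
      ring
  have hext : ∀ σ : K ≃ₐ[K'] K, σ s = s → σ = 1 := by
    intro σ hσ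
    apply AlgEquiv.ext
    intro x
    have hx : x ∈ IntermediateField.adjoin K' {s} := by rw [h.top]; trivial
    refine IntermediateField.adjoin_induction K' (p := fun x _ => σ x = (1 : K ≃ₐ[K'] K) x)
      ?_ ?_ ?_ ?_ ?_ hx
    · intro y hy
      rw [Set.mem_singleton_iff] at hy
      rw [hy, hσ]
      rfl
    · intro y
      rw [AlgEquiv.commutes, AlgEquiv.commutes]
    · intro x y _ _ hx hy
      rw [map_add, hx, hy, map_add]
    · intro x _ hx
      rw [map_inv₀, hx, map_inv₀]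
    · intro x y _ _ hx hy
      rw [map_mul, hx, hy, map_mul]
  have hpp : τ ^ p = 1 := by
    apply hext
    rw [hpow, h.rootK.pow_eq_one, one_mul]
  have hne : τ ≠ 1 := by
    intro h1
    have h3 := hτ
    rw [h1] at h3
    have h4 : algebraMap K' K ζ = 1 := by
      have h5 : (1 - algebraMap K' K ζ) * s = 0 := by
        rw [sub_mul, ← h3, one_mul]
        exact sub_self s
      rcases mul_eq_zero.1 h5 with h6 | h6
      · exact (sub_eq_zero.1 h6).symm
      · exact absurd h6 h.s_ne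
    exact h.rootK.ne_one h.prime.one_lt h4
  haveI : Fact p.Prime := ⟨h.prime⟩
  have hord : orderOf τ = p := orderOf_eq_prime hpp hne
  have hcard : Nat.card (K ≃ₐ[K'] K) = p := by
    apply le_antisymm
    · have h1 := AlgEquiv.card_le (F := K') (K := K)
      rw [Fintype.card_eq_nat_card, h.finrank] at h1
      exact h1
    · rw [← hord, ← Nat.card_zpowers]
      exact Nat.card_le_card_of_injective _ Subtype.val_injective
  haveI hgal : IsGalois K' K := IsGalois.of_card_aut_eq_finrank K' K (by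
    rw [hcard, h.finrank])
  have hz : Subgroup.zpowers τ = ⊤ := by
    apply Subgroup.eq_top_of_card_eq
    rw [Nat.card_zpowers, hord, hcard]
  have hmem : ∀ σ : K ≃ₐ[K'] K, σ ∈ Subgroup.zpowers τ := fun σ => by rw [hz]; trivial
  refine ⟨τ, hτ, hgal, hmem, hpp, fun x hx => ?_⟩
  have h1 : x ∈ (⊥ : IntermediateField K' K) := by
    rw [IsGalois.mem_bot_iff_fixed]
    intro σ
    obtain ⟨n, hn⟩ := Subgroup.mem_zpowers_iff.1 (hmem σ)
    rw [← hn]
    have h3 : ∀ j : ℕ, (τ ^ j) x = x := by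
      intro j
      induction j with
      | zero => rw [pow_zero]; rfl
      | succ j ih => rw [pow_succ', AlgEquiv.mul_apply, ih, hx]
    obtain ⟨j, rfl | rfl⟩ := n.eq_nat_or_neg
    · rw [zpow_natCast]
      exact h3 j
    · rw [zpow_neg, zpow_natCast]
      have h4 : (τ ^ j)⁻¹ ((τ ^ j) x) = x := by
        rw [← AlgEquiv.mul_apply, inv_mul_cancel]
        rfl
      rwa [h3 j] at h4
  exact IntermediateField.mem_bot.1 h1

/-- The elements of `K` whose `p`-th power is in `K'`. -/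
theorem IsKum.pow_base (h : IsKum p ζ D s) {ν : K'} {κ : K} (hκ : κ ^ p = algebraMap K' K ν) :
    ∃ (c : K') (j : ℕ), ν = c ^ p * D ^ j := by
  haveI : NeZero p := ⟨h.prime.ne_zero⟩
  obtain ⟨τ, hτ, -, -, -, hfix⟩ := h.exists_tau
  rcases eq_or_ne κ 0 with rfl | hκ0
  · rw [zero_pow h.prime.ne_zero] at hκ
    refine ⟨0, 0, ?_⟩
    rw [zero_pow h.prime.ne_zero, zero_mul]
    exact (_root_.map_eq_zero _).1 hκ.symm
  · have h1 : (τ κ / κ) ^ p = 1 := by
      rw [div_pow, ← map_pow, hκ, AlgEquiv.commutes, ← hκ]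
      exact div_self (pow_ne_zero _ hκ0)
    obtain ⟨j, -, hj⟩ := h.rootK.eq_pow_of_pow_eq_one h1
    have h3 : τ κ = algebraMap K' K ζ ^ j * κ := by rw [hj, div_mul_cancel₀ _ hκ0]
    have hs := h.s_ne
    have hζ : algebraMap K' K ζ ≠ 0 := h.rootK.ne_zero h.prime.ne_zero
    obtain ⟨c, hc⟩ := hfix (κ / s ^ j) (by
      rw [map_div₀, map_pow, h3, hτ, mul_pow]
      exact mul_div_mul_left _ _ (pow_ne_zero _ hζ))
    refine ⟨c, j, (algebraMap K' K).injective ?_⟩
    rw [map_mul, map_pow, map_pow, hc, ← h.pow, ← hκ, div_pow, ← pow_mul, ← pow_mul, mul_comm j p]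
    exact (div_mul_cancel₀ _ (pow_ne_zero _ hs)).symm

/-- The components of an element. -/
theorem IsKum.comps (h : IsKum p ζ D s) {τ : K ≃ₐ[K'] K} (hτ : τ s = algebraMap K' K ζ * s)
    (hpp : τ ^ p = 1) (hfix : ∀ x : K, τ x = x → ∃ a : K', algebraMap K' K a = x)
    (S : Subring K) (hS : ∀ y ∈ S, τ y ∈ S) (hSζ : algebraMap K' K ζ ∈ S)
    (hSp : ((p : K))⁻¹ ∈ S) {x : K} (hx : x ∈ S) :
    ∃ b : ℕ → K', x = ∑ i ∈ Finset.range p, algebraMap K' K (b i) * s ^ i ∧
      ∀ i < p, algebraMap K' K (b i) * s ^ i ∈ S := by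
  set z := algebraMap K' K ζ with hz
  have hzp : z ^ p = 1 := h.rootK.pow_eq_one
  have hz0 : z ≠ 0 := h.rootK.ne_zero h.prime.ne_zero
  have hs := h.s_ne
  have hpK : (p : K) ≠ 0 := by
    have h1 : (p : K) = algebraMap K' K (p : K') := by rw [map_natCast]
    rw [h1]
    exact (_root_.map_ne_zero _).2 h.ne
  have hτz : τ z = z := AlgEquiv.commutes _ _
  set η : K := z ^ (p - 1) with hη
  have hηz : η * z = 1 := by
    rw [hη, ← pow_succ, Nat.sub_add_cancel h.prime.one_lt.le, hzp]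
  have hτη : τ η = η := by rw [hη, map_pow, hτz]
  have hηS : η ∈ S := pow_mem hSζ _
  have hηp : η ^ p = 1 := by rw [hη, ← pow_mul, mul_comm, pow_mul, hzp, one_pow]
  set E : ℕ → K := fun i => (p : K)⁻¹ * ∑ j ∈ Finset.range p, η ^ (i * j) * (τ ^ j) x with hE
  have hpowS : ∀ j : ℕ, (τ ^ j) x ∈ S := by
    intro j
    induction j with
    | zero => rw [pow_zero]; exact hx
    | succ j ih => rw [pow_succ', AlgEquiv.mul_apply]; exact hS _ ih
  have hES : ∀ i, E i ∈ S := fun i => mul_mem hSp (sum_mem fun j _ =>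
    mul_mem (pow_mem hηS _) (hpowS j))
  have hτE : ∀ i, τ (E i) = z ^ i * E i := by
    intro i
    have h1 : τ (∑ j ∈ Finset.range p, η ^ (i * j) * (τ ^ j) x) =
        z ^ i * ∑ j ∈ Finset.range p, η ^ (i * j) * (τ ^ j) x := by
      have h3 : ∀ j, τ (η ^ (i * j) * (τ ^ j) x) = z ^ i * (η ^ (i * (j + 1)) * (τ ^ (j + 1)) x) := by
        intro j
        rw [map_mul, map_pow, hτη, pow_succ' τ, AlgEquiv.mul_apply, mul_add, mul_one, pow_add]
        have h4 : z ^ i * η ^ i = 1 := by rw [← mul_pow, mul_comm z η, hηz, one_pow]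
        linear_combination -(η ^ (i * j) * τ ((τ ^ j) x)) * h4
      rw [map_sum, Finset.sum_congr rfl fun j _ => h3 j, ← Finset.mul_sum]
      congr 1
      have h5 := Finset.sum_range_succ (fun j => η ^ (i * j) * (τ ^ j) x) p
      have h6 := Finset.sum_range_succ' (fun j => η ^ (i * j) * (τ ^ j) x) p
      have h7 : η ^ (i * p) = 1 := by
        rw [mul_comm, pow_mul, hηp, one_pow]
      rw [h5] at h6
      simp only [mul_zero, pow_zero, h7, hpp] at h6
      exact (add_right_cancel h6).symm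
    show τ ((p : K)⁻¹ * _) = z ^ i * ((p : K)⁻¹ * _)
    rw [map_mul, map_inv₀, map_natCast, h1]
    ring
  have hb : ∀ i, ∃ b : K', algebraMap K' K b * s ^ i = E i := by
    intro i
    obtain ⟨b, hb⟩ := hfix (E i / s ^ i) (by
      rw [map_div₀, map_pow, hτE, hτ, mul_pow]
      exact mul_div_mul_left _ _ (pow_ne_zero _ hz0))
    exact ⟨b, by rw [hb, div_mul_cancel₀ _ (pow_ne_zero _ hs)]⟩
  choose b hb using hb
  refine ⟨b, ?_, fun i _ => by rw [hb]; exact hES i⟩
  have h1 : ∑ i ∈ Finset.range p, algebraMap K' K (b i) * s ^ i =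
      (p : K)⁻¹ * ∑ j ∈ Finset.range p, (∑ i ∈ Finset.range p, η ^ (i * j)) * (τ ^ j) x := by
    rw [Finset.sum_congr rfl fun i _ => hb i]
    show ∑ i ∈ Finset.range p, (p : K)⁻¹ * ∑ j ∈ Finset.range p, η ^ (i * j) * (τ ^ j) x = _
    rw [← Finset.mul_sum, Finset.sum_comm]
    congr 1
    exact Finset.sum_congr rfl fun j _ => (Finset.sum_mul _ _ _).symm
  have h3 : ∀ j ∈ Finset.range p, j ≠ 0 → (∑ i ∈ Finset.range p, η ^ (i * j)) * (τ ^ j) x = 0 := by
    intro j hj hj0
    have hjp : j < p := Finset.mem_range.1 hj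
    have hcop : j.Coprime p := (Nat.coprime_of_lt_prime hj0 hjp h.prime).symm
    have hcop' : (p - 1).Coprime p := by
      refine (Nat.coprime_of_lt_prime ?_ ?_ h.prime).symm
      · have := h.prime.one_lt
        omega
      · have := h.prime.pos
        omega
    have hprim : IsPrimitiveRoot (η ^ j) p := by
      rw [hη, ← pow_mul]
      exact h.rootK.pow_of_coprime _ (Nat.Coprime.mul_left hcop' hcop)
    have h4 : ∑ i ∈ Finset.range p, η ^ (i * j) = 0 := by
      rw [← hprim.geom_sum_eq_zero h.prime.one_lt]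
      exact Finset.sum_congr rfl fun i _ => by rw [mul_comm i j, pow_mul]
    rw [h4, zero_mul]
  rw [h1, Finset.sum_eq_single 0 h3 (fun h0 => absurd (Finset.mem_range.2 h.prime.pos) h0)]
  simp only [mul_zero, pow_zero, Finset.sum_const, Finset.card_range, nsmul_eq_mul, mul_one]
  rw [← mul_assoc, inv_mul_cancel₀ hpK, one_mul]
  rfl

end kum

end Pool.Agent.Q45.TL
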