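import Pool.Agent.Q45.TL.Dv

/-!
# The theorem over towers of cyclic extensions of degree `p`
-/

set_option autoImplicit false
set_option linter.all false

open Polynomial IsDedekindDomain WithZero
open scoped Classical

namespace Pool.Agent.Q45.TL

open Pool.Agent.Q45.TW (cst ff ff_monic ff_natDegree ff_map IsGeom)
open Pool.Agent.Y160.SE (IsPw)
open Pool.Agent.Q45.GP (Regular TateOver)
open Pool.Agent.Y160.SQ
open Pool.Agent.Y160.RK (ptCl spanD gen_iter no_tor_base)
open Pool.Agent.Q45.TT (FS FS.base exists_alg exists_ic exists_above ff_alg irr_base sep_ff Ram RamK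
  exists_irr val_under exists_sub HasDer exists_field regular_of_der exists_algG ff_geom reg_up)

section main

variable {p e q : ℕ} {k : Type} [Field k] {g : k[X]} {ζ : k} {K : Type} [Field K] [Algebra k[X] K]

theorem good (hp : p.Prime) (hqe : q = p ^ e) (he : e ≠ 0) (hζ : IsPrimitiveRoot ζ q)
    (hg : g.Monic) (hpos : 0 < g.natDegree) (hcop : p.Coprime g.natDegree)
    (hsep : (ff g K).Separable) : Good q (cst k K ζ) (ff g K) := by
  refine ⟨⟨p, e, hp.prime, Nat.pos_of_ne_zero he, hqe.symm⟩,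
    hζ.map_of_injective (f := cst k K) (cst k K).injective, ff_monic hg hpos, hsep, ?_⟩
  rw [ff_natDegree hg hpos, hqe]
  exact hcop.pow_left e

/-- The Tate-Shafarevich group and the divisibility, from the descent. -/
theorem sha_of (hp : p.Prime) (hqe : q = p ^ e) (he : e ≠ 0) (hζ : IsPrimitiveRoot ζ q)
    (hg : g.Monic) (hpos : 0 < g.natDegree) (hcop : p.Coprime g.natDegree)
    (hd : derivative g ≠ 0) (hfs : FS k K) (hirr : Irreducible (ff g K)) {A : Type} [CommRing A]
    [IsDedekindDomain A] [Algebra A K] [IsFractionRing A K] [Algebra k[X] A]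
    [IsScalarTower k[X] A K] [IsIntegralClosure A k[X] K] (hS : Regular K (ff g A))
    (htriv : Triv q g K) :
    ∃ hgd : Good q (cst k K ζ) (ff g K), Pool.Agent.Y160.SH.ShaTriv p q A (ff g K) ∧
      ∀ x : Jac q (ff g K) K, ∃ v : Jac q (ff g K) K, x = pe hgd K (1 - X) v := by
  obtain ⟨L, R, i1, i2, i3, i4, i5, i6, i7, i8, θ, i9, i10, i11, i12, hint, hcomp, hθ, htop, hfsL⟩ :=
    exists_field hg hpos hirr hd hfs A
  have hgd : Good q (cst k K ζ) (ff g K) := good hp hqe he hζ hg hpos hcop (sep_ff hirr hd)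
  refine ⟨hgd, ?_⟩
  haveI := hint
  letI : Algebra A L := ((algebraMap K L).comp (algebraMap A K)).toAlgebra
  haveI : IsScalarTower A K L := IsScalarTower.of_algebraMap_eq fun x => rfl
  haveI : IsScalarTower A R L := IsScalarTower.of_algebraMap_eq fun x => hcomp x
  haveI : Module.IsTorsionFree A R := by
    rw [Module.isTorsionFree_iff_algebraMap_injective]
    exact TT.tf_of (K' := K) (K := L) (IsFractionRing.injective A K) fun a => (hcomp a).symm
  have hff : (ff g A).map (algebraMap A K) = ff g K :=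
    ff_map _ fun p => (IsScalarTower.algebraMap_apply k[X] A K p).symm
  have hq0 : q ≠ 0 := by rw [hqe]; exact pow_ne_zero _ hp.ne_zero
  have hpts : ∀ z : L, z ≠ 0 → (∀ v : HeightOneSpectrum R, IsPw q (v.valuation L z)) →
      (∃ y : K, Algebra.norm K z = y ^ q) →
      ∃ (u : K) (g : L) (S : Multiset (K[X] × K[X])), u ≠ 0 ∧ g ≠ 0 ∧
        (∀ P ∈ S, P ∈ (∅ : Set (K[X] × K[X]))) ∧ z = algebraMap K L u * g ^ q * aeval θ (dvP S) := by
    intro z hz hev hno
    obtain ⟨c, hc⟩ := htriv L θ hθ htop R z hz hev hno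
    have hc0 : c ≠ 0 := by
      rintro rfl
      rw [zero_pow hq0] at hc
      exact hz hc
    refine ⟨1, c, 0, one_ne_zero, hc0, fun P hP => absurd hP (Multiset.notMem_zero P), ?_⟩
    rw [hc, map_one, one_mul]
    have h5 : dvP (0 : Multiset (K[X] × K[X])) = 1 := rfl
    rw [h5, map_one, mul_one]
  have key : ∀ (f1 : K[X]) (h : (ff g A).map (algebraMap A K) = f1)
      (hgd : Good q (cst k K ζ) f1), Irreducible f1 → aeval θ f1 = 0 →
      Pool.Agent.Y160.SH.ShaTriv p q A f1 ∧
      ∀ x : Jac q f1 K, ∃ v : Jac q f1 K, x = pe hgd K (1 - X) v := by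
    rintro f1 rfl hgd hirr hθ'
    obtain ⟨h1, h3⟩ := Pool.Agent.Q45.GP.main (p := p) (m := e) (ℓ := q) (A := A) (K := K) (N := L)
      (R := R) hp hqe (f := ff g A) (ζ := cst k K ζ) hgd (ff_monic hg hpos)
      hS hirr (θ := θ) hθ' htop ∅ (fun P hP => absurd hP (Set.notMem_empty P)) hpts
    refine ⟨h1, fun x => ?_⟩
    obtain ⟨T, y, hT, hx⟩ := h3 x
    have hT0 : T = 0 := by
      rw [Multiset.eq_zero_iff_forall_notMem]
      exact fun P hP => Set.notMem_empty P (hT P hP)
    refine ⟨y, ?_⟩
    rw [hx, hT0, Multiset.map_zero, Multiset.sum_zero, zero_add]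
  exact key _ hff hgd hirr hθ

/-- There is no `p`-torsion, and every element is divisible by `p`. -/
theorem uniq_div (hp : p.Prime) (hqe : q = p ^ e) {ξ : K} {f : K[X]} (hgd : Good q ξ f)
    (hirr : Irreducible f) (h : ∀ x : Jac q f K, ∃ v : Jac q f K, x = pe hgd K (1 - X) v)
    (x : Jac q f K) : ∃! y, p • y = x := by
  have hnt : ∀ y : Jac q f K, pe hgd K (1 - X) y = 0 → y = 0 := by
    intro y hy
    rw [pe_sub, pe_one, pe_X] at hy
    exact no_tor_base hyps hgd Pool.Agent.Y160.FT.inj_all hirr hy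
  obtain ⟨W, hW⟩ := exists_W' (p := p) (m := e) hgd hp hqe
  have hno : ∀ y : Jac q f K, p • y = 0 → y = 0 := by
    intro y hy
    have h1 : pe hgd K ((1 - X) ^ q) y = 0 := by rw [hW, ← map_nsmul, hy, map_zero]
    have h3 : ∀ n : ℕ, pe hgd K ((1 - X) ^ n) y = 0 → y = 0 := by
      intro n
      induction n with
      | zero => intro h0; rwa [pow_zero, pe_one] at h0
      | succ n ih =>
        intro h0
        rw [pow_succ', pe_mul] at h0
        exact ih (hnt _ h0)
    exact h3 q h1
  let D : Fin 0 → Jac q f K := fun i => i.elim0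
  obtain ⟨y, hy⟩ := gen_iter (p := p) (m := e) hyps hgd hp hqe D (fun x => by
    obtain ⟨v, hv⟩ := h x
    refine ⟨v, ?_⟩
    rw [← hv, sub_self]
    exact AddSubgroup.zero_mem _) 1 x
  have h5 : spanD hgd D = ⊥ := by
    unfold spanD
    rw [eq_bot_iff, AddSubgroup.closure_le]
    rintro _ ⟨⟨i, _⟩, rfl⟩
    exact i.elim0
  rw [h5, AddSubgroup.mem_bot, pow_one, sub_eq_zero] at hy
  refine ⟨y, hy.symm, fun y' hy' => ?_⟩
  have h6 : p • (y' - y) = 0 := by
    rw [smul_sub, hy', ← hy, sub_self]
  exact sub_eq_zero.1 (hno _ h6)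

theorem zeta_p (hp : p.Prime) (hqe : q = p ^ e) (he : e ≠ 0) (hζ : IsPrimitiveRoot ζ q) :
    IsPrimitiveRoot (ζ ^ p ^ (e - 1)) p := by
  obtain ⟨n, rfl⟩ : ∃ n, e = n + 1 := ⟨e - 1, by omega⟩
  rw [Nat.add_sub_cancel]
  rw [hqe] at hζ
  exact hζ.pow (pow_pos hp.pos _) (pow_succ p n)

/-- **The Tate-Shafarevich group over the tower.** -/
theorem sha_tower (hp : p.Prime) (hqe : q = p ^ e) (he : e ≠ 0) (hζ : IsPrimitiveRoot ζ q)
    (hg : g.Monic) (hpos : 0 < g.natDegree) (hcop : p.Coprime g.natDegree)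
    (hd : derivative g ≠ 0) {m : ℕ} {s : ℕ → K} (h : IsTower p k K m s)
    {A : Type} [CommRing A] [IsDedekindDomain A] [Algebra A K] [IsFractionRing A K]
    [Algebra k[X] A] [IsScalarTower k[X] A K] [IsIntegralClosure A k[X] K] (hram : Ram g A) :
    Pool.Agent.Y160.SH.ShaTriv p q A (ff g K) ∧ ∀ x : Jac q (ff g K) K, ∃! y, p • y = x := by
  have hζp := zeta_p hp hqe he hζ
  have hfs : FS k K := h.fs hp hζp
  have hirr : Irreducible (ff g K) := h.irr hp hζp hg hpos hcop
  have hreg : Regular K (ff g A) := regular_of_der (h.hasDer hp hζp) fun v b hb hbv =>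
    ⟨b, Ideal.pow_le_self two_ne_zero hbv, (hram v b hb hbv).2⟩
  have htriv : Triv p g K := h.triv hp hζp hg hpos hcop hd (RamK.of hfs hram)
  have htrivq : Triv q g K := by
    rw [hqe] at hζ ⊢
    exact htriv.pow hp hg hpos e hζ
  obtain ⟨hgd, h1, h3⟩ := sha_of hp hqe he hζ hg hpos hcop hd hfs hirr (A := A) hreg htrivq
  exact ⟨h1, uniq_div hp hqe hgd hirr h3⟩

end main

section tate

variable {p e q : ℕ} {k k' : Type} [Field k] [Field k'] [Algebra k k'] {g : k[X]} {ζ : k}
  {K F : Type} [Field K] [Algebra k[X] K] [Field F] [Algebra k'[X] F] [Algebra K F]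

/-- The tower over the larger field of constants. -/
theorem IsTower.up {m : ℕ} {s : ℕ → K} (h : IsTower p k K m s) (hF : IsGeom k k' K F) :
    IsTower p k' F m (fun i => algebraMap K F (s i)) := by
  have hcl : ∀ (i : ℕ) (x : K),
      x ∈ Subfield.closure (Set.range (algebraMap k[X] K) ∪ s '' {j | j < i}) →
      algebraMap K F x ∈ Subfield.closure (Set.range (algebraMap k'[X] F) ∪
        (fun i => algebraMap K F (s i)) '' {j | j < i}) := by
    intro i x hx
    set S := Subfield.closure (Set.range (algebraMap k'[X] F) ∪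
          (fun i => algebraMap K F (s i)) '' {j | j < i}) with hS
    have h3 : Subfield.closure (Set.range (algebraMap k[X] K) ∪ s '' {j | j < i}) ≤
        S.comap (algebraMap K F) := by
      rw [Subfield.closure_le]
      rintro x (⟨p, rfl⟩ | ⟨j, hj, rfl⟩)
      · show algebraMap K F (algebraMap k[X] K p) ∈ S
        rw [hF.comp]
        exact Subfield.subset_closure (Or.inl ⟨_, rfl⟩)
      · exact Subfield.subset_closure (Or.inr ⟨j, hj, rfl⟩)
    exact h3 hx
  refine ⟨hF.inj, fun i hi => ?_, ?_⟩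
  · show algebraMap K F (s i) ^ p ∈ _
    rw [← map_pow]
    exact hcl i _ (h.pow i hi)
  · rw [eq_top_iff]
    rintro x -
    have hx : x ∈ IntermediateField.adjoin K (Set.range ((algebraMap k'[X] F).comp C)) := by
      rw [hF.gen]
      trivial
    refine IntermediateField.adjoin_induction K (p := fun x _ => x ∈ Subfield.closure
      (Set.range (algebraMap k'[X] F) ∪ (fun i => algebraMap K F (s i)) '' {j | j < m}))
      ?_ ?_ ?_ ?_ ?_ hx
    · rintro _ ⟨c, rfl⟩
      exact Subfield.subset_closure (Or.inl ⟨_, rfl⟩)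
    · intro x
      exact hcl m x (by rw [h.gen]; trivial)
    · intro x y _ _ hx hy
      exact add_mem hx hy
    · intro x _ hx
      exact inv_mem hx
    · intro x y _ _ hx hy
      exact mul_mem hx hy

/-- **The Tate conjecture over the tower.** -/
theorem tate_tower [IsGalois k k'] (hp : p.Prime) (hqe : q = p ^ e) (he : e ≠ 0)
    (hζ : IsPrimitiveRoot ζ q) (hg : g.Monic) (hpos : 0 < g.natDegree)
    (hcop : p.Coprime g.natDegree) (hd : derivative g ≠ 0) {m : ℕ} {s : ℕ → K}
    (h : IsTower p k K m s) {A : Type} [CommRing A] [IsDedekindDomain A] [Algebra A K]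
    [IsFractionRing A K] [Algebra k[X] A] [IsScalarTower k[X] A K] [IsIntegralClosure A k[X] K]
    (hram : Ram g A) (hF : IsGeom k k' K F) {A' : Type} [CommRing A'] [IsDedekindDomain A']
    [Algebra A' F] [IsFractionRing A' F] [Algebra k'[X] A'] [IsScalarTower k'[X] A' F]
    [IsIntegralClosure A' k'[X] F] : TateOver (F := F) p q A' (ff g K) := by
  have hζp := zeta_p hp hqe he hζ
  have hfs : FS k K := h.fs hp hζp
  have hirr : Irreducible (ff g K) := h.irr hp hζp hg hpos hcop
  have htriv : Triv p g K := h.triv hp hζp hg hpos hcop hd (RamK.of hfs hram)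
  have htrivq : Triv q g K := by
    rw [hqe] at hζ ⊢
    exact htriv.pow hp hg hpos e hζ
  have hF' : IsTower p k' F m (fun i => algebraMap K F (s i)) := h.up hF
  have hζp' : IsPrimitiveRoot (algebraMap k k' (ζ ^ p ^ (e - 1))) p :=
    hζp.map_of_injective (algebraMap k k').injective
  have hirrF : Irreducible (ff (g.map (algebraMap k k')) F) := hF'.irr hp hζp' (hg.map _)
    (by rwa [hg.natDegree_map]) (by rwa [hg.natDegree_map])
  have hS : Regular F (ff (g.map (algebraMap k k')) A') := reg_up (A := A) hF hfs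
    (hF'.hasDer hp hζp') fun w b hb hbw => (hram w b hb hbw).2
  obtain ⟨L, R, i1, i2, i3, i4, i5, i6, i7, i8, θ, i9, i10, i11, i12, hint, hcomp, hθ, htop, hfsL⟩ :=
    exists_field hg hpos hirr hd hfs A
  have hgd : Good q (cst k K ζ) (ff g K) := good hp hqe he hζ hg hpos hcop (sep_ff hirr hd)
  haveI := hint
  have hq0 : q ≠ 0 := by rw [hqe]; exact pow_ne_zero _ hp.ne_zero
  set j := algebraMap k k' with hj
  have hg' : (g.map j).Monic := hg.map _
  obtain ⟨ψ, hψ1, hψ2⟩ := exists_algG hF A A'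
  letI : Algebra A A' := ψ.toAlgebra
  haveI : Algebra.IsIntegral A A' := by
    have h1 : (algebraMap k'[X] A').IsIntegral := fun x => IsIntegralClosure.isIntegral k'[X] F x
    have h3 : ((algebraMap k'[X] A').comp (mapRingHom j)).IsIntegral :=
      RingHom.IsIntegral.trans _ _ Pool.Agent.TH115.GD.poly_integral h1
    have h4 : (algebraMap k'[X] A').comp (mapRingHom j) =
        ψ.comp (algebraMap k[X] A) := RingHom.ext fun p => (hψ2 p).symm
    rw [h4] at h3
    exact ⟨RingHom.IsIntegral.tower_top _ _ h3⟩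
  letI : Algebra k K := ((algebraMap k[X] K).comp C).toAlgebra
  letI : Algebra k' F := ((algebraMap k'[X] F).comp C).toAlgebra
  letI : Algebra k F := ((algebraMap k' F).comp j).toAlgebra
  haveI : IsScalarTower k k' F := IsScalarTower.of_algebraMap_eq fun x => rfl
  haveI : IsScalarTower k K F := IsScalarTower.of_algebraMap_eq fun x => by
    show algebraMap k'[X] F (C (j x)) = algebraMap K F (algebraMap k[X] K (C x))
    rw [hF.comp, map_C]
  letI : Algebra k' A' := ((algebraMap k'[X] A').comp C).toAlgebra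
  haveI : IsScalarTower k' A' F := IsScalarTower.of_algebraMap_eq fun x =>
    IsScalarTower.algebraMap_apply k'[X] A' F (C x)
  have hfA : (ff (g.map j) A').map (algebraMap A' F) = (ff g K).map (algebraMap K F) := by
    rw [ff_map (algebraMap A' F) (fun p => (IsScalarTower.algebraMap_apply k'[X] A' F p).symm)]
    exact ff_geom hF
  exact Pool.Agent.Q45.GP.tateC k (R := R) (A := A) (p := p) (m := e) (ℓ := q) hp hqe hF.gen hψ1
    hcomp hfA hgd (ff_monic hg' (by rwa [hg.natDegree_map])) hS hirr (by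
      rw [← ff_geom hF]
      exact hirrF) hθ htop ∅ (fun P hP => absurd hP (Set.notMem_empty P)) (fun z hz hev hno => by
      obtain ⟨c, hc⟩ := htrivq L θ hθ htop R z hz hev hno
      have hc0 : c ≠ 0 := by
        rintro rfl
        rw [zero_pow hq0] at hc
        exact hz hc
      refine ⟨1, c, 0, one_ne_zero, hc0, fun P hP => absurd hP (Multiset.notMem_zero P), ?_⟩
      rw [hc, map_one, one_mul]
      have h5 : dvP (0 : Multiset (K[X] × K[X])) = 1 := rfl
      rw [h5, map_one, mul_one])

end tate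

end Pool.Agent.Q45.TL
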