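import Pool.Agent.Q45.TL.Tow

/-!
# The descent in a cyclic extension
-/

set_option autoImplicit false
set_option linter.all false

open Polynomial IsDedekindDomain WithZero
open scoped Classical

namespace Pool.Agent.Q45.TL

open Pool.Agent.Q45.TW (cst ff ff_monic ff_natDegree ff_map)
open Pool.Agent.Y160.SE (IsPw)
open Pool.Agent.Q45.TT (FS FS.base exists_alg exists_ic exists_above ff_alg irr_base sep_ff Ram RamK
  exists_irr val_under)

section inert

variable {p : ℕ} {k : Type} [Field k] {A' R' : Type} [CommRing A'] [IsDedekindDomain A']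
  [CommRing R'] [IsDedekindDomain R'] [Algebra A' R'] [Algebra k[X] A'] [Algebra k[X] R']
  [IsScalarTower k[X] A' R'] [Module.IsTorsionFree A' R'] [Module.Finite A' R']
  [Module.Finite k[X] R'] [Module.IsTorsionFree k[X] R']

theorem inert_q [Algebra.IsIntegral A' R'] (q : HeightOneSpectrum R') {b g : k[X]}
    (hb : Irreducible b) (hbq : algebraMap k[X] R' b ∈ q.asIdeal) (θ : R')
    (hθ : eval₂ (cst k R') θ g = -algebraMap k[X] R' X) (hirr : Irreducible (b.comp (-g)))
    (hcop : p.Coprime g.natDegree) (hn : Module.finrank A' R' = g.natDegree) {j : ℕ}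
    (hj : (q.under A').asIdeal.inertiaDeg k[X] = p ^ j) :
    (q.under A').asIdeal.map (algebraMap A' R') = q.asIdeal := by
  haveI hlo : q.asIdeal.LiesOver (q.under A').asIdeal := ⟨rfl⟩
  refine TT.inert_of q ?_
  rw [hn]
  have h1 := TT.dvd_inertia q hb hbq θ hθ hirr
  rw [Ideal.inertiaDeg_tower (R := k[X]) (q.under A').asIdeal q.asIdeal, hj] at h1
  exact (hcop.symm.pow_right j).dvd_of_dvd_mul_left h1

end inert

section kum

variable {p : ℕ} {K' K L' L : Type} [Field K'] [Field K] [Field L'] [Field L] [Algebra K' K]
  [Algebra K' L'] [Algebra K L] [Algebra L' L] [Algebra K' L] [IsScalarTower K' K L]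
  [IsScalarTower K' L' L]

/-- The cyclic extension generated by the same root. -/
theorem kum_up {ζ D : K'} {s : K} (hq : IsKum p ζ D s) {θ' : L'}
    (htop' : IntermediateField.adjoin K' {θ'} = ⊤)
    (htop : IntermediateField.adjoin K {algebraMap L' L θ'} = ⊤) {f : K'[X]} (hm : f.Monic)
    (hpos : 0 < f.natDegree) (hirr' : Irreducible f) (hirr : Irreducible (f.map (algebraMap K' K)))
    (hθ' : aeval θ' f = 0) :
    IsKum p (algebraMap K' L' ζ) (algebraMap K' L' D) (algebraMap K L s) := by
  -- subfields containing `L'` and `s`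
  have key : ∀ S : Subfield L, (∀ x : L', algebraMap L' L x ∈ S) → algebraMap K L s ∈ S → S = ⊤ := by
    intro S h1 h3
    have h4 : ∀ x : K, algebraMap K L x ∈ S := by
      intro x
      have hx : x ∈ IntermediateField.adjoin K' {s} := by rw [hq.top]; trivial
      refine IntermediateField.adjoin_induction K' (p := fun x _ => algebraMap K L x ∈ S)
        ?_ ?_ ?_ ?_ ?_ hx
      · intro y hy
        rw [Set.mem_singleton_iff] at hy
        rw [hy]
        exact h3
      · intro y
        rw [← IsScalarTower.algebraMap_apply K' K L, IsScalarTower.algebraMap_apply K' L' L]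
        exact h1 _
      · intro x y _ _ hx hy
        rw [map_add]
        exact add_mem hx hy
      · intro x _ hx
        rw [map_inv₀]
        exact inv_mem hx
      · intro x y _ _ hx hy
        rw [map_mul]
        exact mul_mem hx hy
    let T : IntermediateField K L := S.toIntermediateField h4
    have h5 : T = ⊤ := by
      rw [eq_top_iff, ← htop, IntermediateField.adjoin_simple_le_iff]
      exact h1 θ'
    rw [eq_top_iff]
    rintro x -
    have h6 : x ∈ T := by rw [h5]; trivial
    exact h6
  refine ⟨hq.prime, hq.root.map_of_injective (algebraMap K' L').injective, ?_, fun x hx => ?_, ?_⟩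
  · rw [← map_pow, hq.pow, ← IsScalarTower.algebraMap_apply K' K L,
      ← IsScalarTower.algebraMap_apply K' L' L]
  · have h1 := key (algebraMap L' L).fieldRange (fun x => ⟨x, rfl⟩) ⟨x, hx⟩
    have hsurj : Function.Surjective (algebraMap L' L) := by
      intro y
      have h3 : y ∈ (algebraMap L' L).fieldRange := by rw [h1]; trivial
      exact h3
    let e : L' ≃ₗ[K'] L := LinearEquiv.ofBijective (IsScalarTower.toAlgHom K' L' L).toLinearMap
      ⟨(algebraMap L' L).injective, hsurj⟩
    have h3 := e.finrank_eq
    have h4 : Module.finrank K' L' = f.natDegree := TW.finrank_of hirr' hm hθ' htop'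
    have hθ : aeval (algebraMap L' L θ') (f.map (algebraMap K' K)) = 0 := by
      rw [aeval_map_algebraMap, aeval_algebraMap_apply, hθ', map_zero]
    have h5 : Module.finrank K L = f.natDegree := by
      rw [TW.finrank_of hirr (hm.map _) hθ htop, hm.natDegree_map]
    haveI := hq.fin
    rw [h4, ← Module.finrank_mul_finrank K' K L, hq.finrank, h5] at h3
    have h6 := hq.prime.one_lt
    have h7 : 1 * f.natDegree < p * f.natDegree := Nat.mul_lt_mul_of_pos_right h6 hpos
    rw [one_mul] at h7
    exact (h3.trans_gt h7).ne rfl |> fun h => h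
  · have h1 := key (IntermediateField.adjoin L' {algebraMap K L s}).toSubfield
      (fun x => IntermediateField.algebraMap_mem _ x) (IntermediateField.mem_adjoin_simple_self L' _)
    rw [eq_top_iff]
    rintro x -
    have h3 : x ∈ (IntermediateField.adjoin L' {algebraMap K L s}).toSubfield := by rw [h1]; trivial
    exact h3

end kum

/-- Elements of `K(θ)`, `g(θ) + t = 0`, with valuations divisible by `ℓ` and whose norm is an `ℓ`-th
power are `ℓ`-th powers. -/
def Triv (ℓ : ℕ) {k : Type} [Field k] (g : k[X]) (K : Type) [Field K] [Algebra k[X] K] : Prop :=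
  ∀ (L : Type) [Field L] [Algebra k[X] L] [Algebra K L] [IsScalarTower k[X] K L] (θ : L),
    aeval θ (ff g K) = 0 → IntermediateField.adjoin K {θ} = ⊤ →
    ∀ (R : Type) [CommRing R] [IsDedekindDomain R] [Algebra k[X] R] [Algebra R L]
      [IsScalarTower k[X] R L] [IsFractionRing R L] [IsIntegralClosure R k[X] L] (z : L),
      z ≠ 0 → (∀ w : HeightOneSpectrum R, IsPw ℓ (w.valuation L z)) →
      (∃ u : K, Algebra.norm K z = u ^ ℓ) → ∃ c : L, z = c ^ ℓ

section step

variable {p : ℕ} {k : Type} [Field k] {g : k[X]} {ζ : k}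

theorem isUnit_p (hp : p.Prime) (hζ : IsPrimitiveRoot ζ p) (A : Type) [CommRing A] [Algebra k[X] A] :
    IsUnit (p : A) := by
  haveI : NeZero p := ⟨hp.ne_zero⟩
  have h1 : (p : k) ≠ 0 := hζ.neZero'.ne
  have h3 : (p : A) = algebraMap k[X] A (C (p : k)) := by
    rw [map_natCast C, map_natCast]
  rw [h3]
  exact (isUnit_C.2 (IsUnit.mk0 _ h1)).map _

/-- The valuations of the element of the smaller field. -/
theorem even_all (hp : p.Prime) (hζ : IsPrimitiveRoot ζ p) (hg : g.Monic) (hpos : 0 < g.natDegree)
    (hcop : p.Coprime g.natDegree)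
    {K' K L' L : Type} [Field K'] [Field K] [Field L'] [Field L]
    [Algebra k[X] K'] [Algebra k[X] K] [Algebra k[X] L'] [Algebra k[X] L]
    [Algebra K' K] [Algebra K' L'] [Algebra K L] [Algebra L' L] [Algebra K' L]
    [IsScalarTower K' K L] [IsScalarTower K' L' L] [IsScalarTower k[X] K' K]
    [IsScalarTower k[X] K' L'] [IsScalarTower k[X] L' L] [IsScalarTower k[X] K L]
    {D : K'} {s : K} (hq : IsKum p (cst k K' ζ) D s) {θ' : L'} (hθ' : aeval θ' (ff g K') = 0)
    (htop' : IntermediateField.adjoin K' {θ'} = ⊤)
    (htop : IntermediateField.adjoin K {algebraMap L' L θ'} = ⊤)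
    (hirr' : Irreducible (ff g K')) (hirr : Irreducible (ff g K)) {m' : ℕ} {s' : ℕ → K'}
    (htw : IsTower p k K' m' s') (hfsL' : FS k L') (hfsL : FS k L) (hram : RamK g K)
    {R' R : Type} [CommRing R'] [CommRing R] [IsDedekindDomain R'] [IsDedekindDomain R]
    [Algebra k[X] R'] [Algebra k[X] R] [Algebra R' L'] [Algebra R L] [IsScalarTower k[X] R' L']
    [IsScalarTower k[X] R L] [IsIntegralClosure R' k[X] L'] [IsIntegralClosure R k[X] L]
    [IsFractionRing R' L'] [IsFractionRing R L]
    {x : L'} {y : K'} (hy : Algebra.norm K' x = y ^ p)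
    (hev : ∀ w : HeightOneSpectrum R, IsPw p (w.valuation L (algebraMap L' L x)))
    (q : HeightOneSpectrum R') : IsPw p (q.valuation L' x) := by
  have hqL : IsKum p (algebraMap K' L' (cst k K' ζ)) (algebraMap K' L' D) (algebraMap K L s) := by
    refine kum_up hq htop' htop (ff_monic hg hpos) ?_ hirr' ?_ hθ'
    · rw [ff_natDegree hg hpos]
      exact hpos
    · rwa [ff_alg]
  -- the rings
  obtain ⟨φR, hφR1, hφR2⟩ := exists_alg (k := k) (K' := L') (K := L) R' R
  letI : Algebra R' R := φR.toAlgebra
  haveI : IsScalarTower k[X] R' R := IsScalarTower.of_algebraMap_eq fun p => (hφR2 p).symm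
  haveI := hfsL.finite R
  haveI := hfsL'.finite R'
  haveI : Module.Finite R' R := Module.Finite.of_restrictScalars_finite k[X] R' R
  haveI : Algebra.IsIntegral R' R := Algebra.IsIntegral.of_finite R' R
  haveI : Module.IsTorsionFree R' R := by
    rw [Module.isTorsionFree_iff_algebraMap_injective]
    exact TT.tf_of (K' := L') (K := L) (IsFractionRing.injective R' L') hφR1
  letI : Algebra R' L := ((algebraMap L' L).comp (algebraMap R' L')).toAlgebra
  haveI : IsScalarTower R' L' L := IsScalarTower.of_algebraMap_eq fun _ => rfl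
  haveI : IsScalarTower R' R L := IsScalarTower.of_algebraMap_eq fun a => (hφR1 a).symm
  by_cases hD : IsPw p (q.valuation L' (algebraMap K' L' D))
  · exact even_down (B := R) hqL (isUnit_p hp hζ R') q hD hev
  · -- the rings of integers of `K'` and `K`
    have hfs' : FS k K' := htw.fs hp hζ
    have hfs : FS k K := hfs'.trans hq.fin hq.separable
    obtain ⟨A', a1, a2, a3, a4, a5⟩ := exists_ic (k := k) K'
    obtain ⟨A, b1, b2, b3, b4, b5⟩ := exists_ic (k := k) K
    obtain ⟨φ, hφ1, hφ2⟩ := exists_alg (k := k) (K' := K') (K := K) A' A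
    obtain ⟨ψ, hψ1, hψ2⟩ := exists_alg (k := k) (K' := K') (K := L') A' R'
    letI : Algebra A' A := φ.toAlgebra
    letI : Algebra A' R' := ψ.toAlgebra
    haveI : IsScalarTower k[X] A' A := IsScalarTower.of_algebraMap_eq fun p => (hφ2 p).symm
    haveI : IsScalarTower k[X] A' R' := IsScalarTower.of_algebraMap_eq fun p => (hψ2 p).symm
    haveI := hfs.ded A
    haveI := hfs.frac A
    haveI := hfs.finite A
    haveI := hfs'.ded A'
    haveI := hfs'.frac A'
    haveI := hfs'.finite A'
    haveI : Module.Finite A' A := Module.Finite.of_restrictScalars_finite k[X] A' A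
    haveI : Module.Finite A' R' := Module.Finite.of_restrictScalars_finite k[X] A' R'
    haveI : Algebra.IsIntegral A' A := Algebra.IsIntegral.of_finite A' A
    haveI : Algebra.IsIntegral A' R' := Algebra.IsIntegral.of_finite A' R'
    haveI : Algebra.IsIntegral k[X] A' := Algebra.IsIntegral.of_finite k[X] A'
    haveI : Module.IsTorsionFree A' A := by
      rw [Module.isTorsionFree_iff_algebraMap_injective]
      exact TT.tf_of (K' := K') (K := K) (IsFractionRing.injective A' K') hφ1
    haveI : Module.IsTorsionFree A' R' := by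
      rw [Module.isTorsionFree_iff_algebraMap_injective]
      exact TT.tf_of (K' := K') (K := L') (IsFractionRing.injective A' K') hψ1
    haveI : Module.IsTorsionFree k[X] R' := by
      rw [Module.isTorsionFree_iff_algebraMap_injective]
      exact hfsL'.injB R'
    letI : Algebra A' K := ((algebraMap K' K).comp (algebraMap A' K')).toAlgebra
    haveI : IsScalarTower A' K' K := IsScalarTower.of_algebraMap_eq fun _ => rfl
    haveI : IsScalarTower A' A K := IsScalarTower.of_algebraMap_eq fun a => (hφ1 a).symm
    letI : Algebra A' L' := ((algebraMap K' L').comp (algebraMap A' K')).toAlgebra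
    haveI : IsScalarTower A' K' L' := IsScalarTower.of_algebraMap_eq fun _ => rfl
    haveI : IsScalarTower A' R' L' := IsScalarTower.of_algebraMap_eq fun a => (hψ1 a).symm
    set v := q.under A' with hv
    have hDp : ¬ IsPw p (v.valuation K' D) := by
      rintro ⟨δ, hδ⟩
      apply hD
      rw [val_under (A := A'), ← hv, hδ]
      exact ⟨δ ^ v.asIdeal.ramificationIdx' q.asIdeal, by rw [← pow_mul, ← pow_mul, mul_comm]⟩
    obtain ⟨V, hV⟩ := exists_above (B := A) v
    have h1 : v.asIdeal.map (algebraMap A' A) ≤ V.asIdeal ^ 2 := by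
      rw [← hV] at hDp ⊢
      exact ram_of_odd (K := K') (L := K) hq V hDp
    obtain ⟨b, -, hb, hbp⟩ := exists_irr (hfs'.injB A') v
    have hbV : algebraMap k[X] A b ∈ V.asIdeal ^ 2 := by
      rw [IsScalarTower.algebraMap_apply k[X] A' A]
      exact h1 (Ideal.mem_map_of_mem _ hbp)
    obtain ⟨hbi, -⟩ := hram A V b hb hbV
    -- the root
    have hroot : algebraMap k[X] L' X = -(eval₂ ((algebraMap K' L').comp (cst k K')) θ' g) := by
      have h3 := hθ'
      rw [aeval_def, TW.eval₂_ff, ← IsScalarTower.algebraMap_apply k[X] K' L'] at h3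
      linear_combination h3
    have hcc : (algebraMap K' L').comp (cst k K') = (algebraMap R' L').comp (cst k R') := by
      refine RingHom.ext fun x => ?_
      show algebraMap K' L' (algebraMap k[X] K' (C x)) = algebraMap R' L' (algebraMap k[X] R' (C x))
      rw [← IsScalarTower.algebraMap_apply, ← IsScalarTower.algebraMap_apply]
    obtain ⟨θR, hθR⟩ : ∃ θR : R', algebraMap R' L' θR = θ' := by
      apply (IsIntegralClosure.isIntegral_iff (A := R') (R := k[X])).1
      refine ⟨g.map C + C X, ?_, ?_⟩
      · refine (hg.map C).add_of_left ?_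
        refine lt_of_le_of_lt degree_C_le ?_
        rw [degree_map_eq_of_injective C_injective]
        exact natDegree_pos_iff_degree_pos.1 hpos
      · rw [eval₂_add, eval₂_map, eval₂_C, hroot]
        have h3 : (algebraMap k[X] L').comp C = (algebraMap K' L').comp (cst k K') := by
          refine RingHom.ext fun x => ?_
          show algebraMap k[X] L' (C x) = algebraMap K' L' (algebraMap k[X] K' (C x))
          rw [← IsScalarTower.algebraMap_apply]
        rw [h3, add_neg_cancel]
    have hθR2 : eval₂ (cst k R') θR g = -algebraMap k[X] R' X := by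
      apply IsFractionRing.injective R' L'
      rw [hom_eval₂, hθR, ← hcc, map_neg, ← IsScalarTower.algebraMap_apply k[X] R' L', hroot,
        neg_neg]
    have hfr : Module.finrank K' L' = g.natDegree := by
      rw [TW.finrank_of hirr' (ff_monic hg hpos) hθ' htop', ff_natDegree hg hpos]
    have hn : Module.finrank A' R' = g.natDegree := by
      rw [← IsFractionRing.finrank_eq A' K' R' L', hfr]
    obtain ⟨j, hj⟩ := htw.resPow hp hζ A' v
    have hmap := inert_q q hb (show algebraMap k[X] R' b ∈ q.asIdeal by
      rw [IsScalarTower.algebraMap_apply k[X] A' R']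
      exact hbp) θR hθR2 hbi hcop hn hj
    haveI : FiniteDimensional K' L' := TW.fin_of (ff_monic hg hpos) hθ' htop'
    exact even_inert hp.ne_zero v q hmap (by rw [hfr]; exact hcop.symm) hy

end step

end Pool.Agent.Q45.TL
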