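import Pool.Agent.Q45.TL.Step

/-!
# The reduction to the classes fixed by the Galois group
-/

set_option autoImplicit false
set_option linter.all false

open Polynomial IsDedekindDomain WithZero
open scoped Classical

namespace Pool.Agent.Q45.TL

open Pool.Agent.Q45.TW (cst ff ff_monic ff_natDegree ff_map)
open Pool.Agent.Y160.SE (IsPw)
open Pool.Agent.Q45.TT (FS FS.base exists_alg exists_ic exists_above ff_alg irr_base sep_ff Ram RamK
  exists_irr val_under)

section even

/-- Divisibility of the valuations in a finite extension. -/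
theorem even_hom {p : ℕ} {R R₂ L L₂ : Type} [CommRing R] [IsDedekindDomain R] [Field L]
    [Algebra R L] [IsFractionRing R L] [CommRing R₂] [IsDedekindDomain R₂] [Field L₂]
    [Algebra R₂ L₂] [IsFractionRing R₂ L₂] (φ : R →+* R₂) (σ : L →+* L₂)
    (hφσ : ∀ r, algebraMap R₂ L₂ (φ r) = σ (algebraMap R L r)) (hφi : Function.Injective φ)
    (hφ : Function.Surjective φ) {x : L} (hev : ∀ w : HeightOneSpectrum R, IsPw p (w.valuation L x))
    (w : HeightOneSpectrum R₂) : IsPw p (w.valuation L₂ (σ x)) := by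
  letI : Algebra R R₂ := φ.toAlgebra
  letI : Algebra L L₂ := σ.toAlgebra
  letI : Algebra R L₂ := (σ.comp (algebraMap R L)).toAlgebra
  haveI : IsScalarTower R L L₂ := IsScalarTower.of_algebraMap_eq fun _ => rfl
  haveI : IsScalarTower R R₂ L₂ := IsScalarTower.of_algebraMap_eq fun r => (hφσ r).symm
  haveI : Algebra.IsIntegral R R₂ := ⟨RingHom.isIntegral_of_surjective φ hφ⟩
  haveI : Module.IsTorsionFree R R₂ := by
    rw [Module.isTorsionFree_iff_algebraMap_injective]
    exact hφi
  have h1 := val_under (A := R) (L := L₂) w x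
  obtain ⟨δ, hδ⟩ := hev (w.under R)
  have h3 : w.valuation L₂ (σ x) = w.valuation L₂ (algebraMap L L₂ x) := rfl
  rw [h3, h1, hδ]
  exact ⟨δ ^ (w.under R).asIdeal.ramificationIdx' w.asIdeal, by rw [← pow_mul, ← pow_mul, mul_comm]⟩

/-- The restriction of an automorphism to the ring of integers. -/
theorem exists_restr {k : Type} [Field k] {L : Type} [Field L] [Algebra k[X] L] (τ : L ≃+* L)
    (hτ : ∀ q : k[X], τ (algebraMap k[X] L q) = algebraMap k[X] L q) (R : Type) [CommRing R]
    [Algebra k[X] R] [Algebra R L] [IsScalarTower k[X] R L] [IsIntegralClosure R k[X] L] :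
    ∃ φ : R →+* R, (∀ r, algebraMap R L (φ r) = τ (algebraMap R L r)) ∧ Function.Injective φ ∧
      Function.Surjective φ := by
  have hinj : Function.Injective (algebraMap R L) := IsIntegralClosure.algebraMap_injective R k[X] L
  have hex : ∀ (σ : L ≃+* L) (hσ : ∀ q : k[X], σ (algebraMap k[X] L q) = algebraMap k[X] L q)
      (r : R), ∃ r', algebraMap R L r' = σ (algebraMap R L r) := by
    intro σ hσ r
    apply (IsIntegralClosure.isIntegral_iff (A := R) (R := k[X])).1
    have h1 : IsIntegral k[X] (algebraMap R L r) := (IsIntegralClosure.isIntegral k[X] L r).algebraMap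
    let σ' : L →ₐ[k[X]] L := { (σ : L →+* L) with commutes' := hσ }
    exact h1.map σ'
  choose φ hφ using hex τ hτ
  refine ⟨{ toFun := φ
            map_one' := hinj (by rw [hφ, map_one, map_one])
            map_mul' := fun a b => hinj (by rw [hφ, map_mul, map_mul, map_mul, hφ, hφ])
            map_zero' := hinj (by rw [hφ, map_zero, map_zero])
            map_add' := fun a b => hinj (by rw [hφ, map_add, map_add, map_add, hφ, hφ]) },
    hφ, fun a b hab => ?_, fun r => ?_⟩
  · apply hinj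
    apply τ.injective
    have h1 : φ a = φ b := hab
    rw [← hφ, ← hφ, h1]
  · obtain ⟨r', hr'⟩ := hex τ.symm (fun q => by
      rw [RingEquiv.symm_apply_eq, hτ]) r
    refine ⟨r', hinj ?_⟩
    show algebraMap R L (φ r') = _
    rw [hφ, hr', RingEquiv.apply_symm_apply]

end even

section iter

/-- The power `(τ - 1) ^ p` is divisible by `p`. -/
theorem iter_pow {p : ℕ} (hp : p.Prime) {L : Type} [Field L] (τ : L ≃+* L)
    (hτ : ∀ x, (⇑τ)^[p] x = x) {z : L} (hz : z ≠ 0) :
    ∃ c : L, (fun x => τ x / x)^[p] z = c ^ p := by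
  let T : Module.End ℤ (Additive Lˣ) :=
    (MonoidHom.toAdditive (Units.map ((τ : L →+* L) : L →* L))).toIntLinearMap
  have hTp : T ^ p = 1 := by
    refine LinearMap.ext fun a => ?_
    obtain ⟨u, rfl⟩ : ∃ u : Lˣ, Additive.ofMul u = a := ⟨a.toMul, rfl⟩
    have h1 : ∀ (n : ℕ) (u : Lˣ), ((((T ^ n) (Additive.ofMul u)).toMul : Lˣ) : L) = (⇑τ)^[n] u := by
      intro n
      induction n with
      | zero => intro u; rfl
      | succ n ih =>
        intro u
        rw [pow_succ, Module.End.mul_apply, Function.iterate_succ_apply]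
        exact ih (T (Additive.ofMul u)).toMul
    have h3 : ((((T ^ p) (Additive.ofMul u)).toMul : Lˣ) : L) = u := by
      rw [h1 p u, hτ]
    exact congrArg Additive.ofMul (Units.ext h3)
  have hS : ∀ (n : ℕ) (u : Lˣ), (((((T - 1) ^ n) (Additive.ofMul u)).toMul : Lˣ) : L) =
      (fun x => τ x / x)^[n] (u : L) := by
    intro n
    induction n with
    | zero => intro u; rfl
    | succ n ih =>
      intro u
      rw [pow_succ, Module.End.mul_apply, Function.iterate_succ_apply]
      have h1 : (((T - 1) (Additive.ofMul u)).toMul : Lˣ) =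
        Units.map ((τ : L →+* L) : L →* L) u / u := rfl
      have h3 := ih (((T - 1) (Additive.ofMul u)).toMul : Lˣ)
      have h4 : Additive.ofMul (((T - 1) (Additive.ofMul u)).toMul : Lˣ) =
        (T - 1) (Additive.ofMul u) := rfl
      rw [h4] at h3
      rw [h3, h1, Units.val_div_eq_div_val]
      rfl
  obtain ⟨r, hr⟩ : ∃ r : Module.End ℤ (Additive Lˣ), (T - 1) ^ p = p • r := by
    have hcomm : Commute T (-1) := (Commute.one_right T).neg_right
    obtain ⟨r, hr⟩ := hcomm.exists_add_pow_prime_eq hp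
    rw [← sub_eq_add_neg, hTp] at hr
    rcases hp.eq_two_or_odd' with rfl | hodd
    · refine ⟨1 + T * -1 * r, ?_⟩
      rw [hr, even_two.neg_one_pow, nsmul_eq_mul]
      push_cast
      noncomm_ring
    · refine ⟨T * -1 * r, ?_⟩
      rw [hr, hodd.neg_one_pow, add_neg_cancel, zero_add, nsmul_eq_mul]
      noncomm_ring
  let u : Lˣ := Units.mk0 z hz
  refine ⟨(((r (Additive.ofMul u)).toMul : Lˣ) : L), ?_⟩
  have h1 := hS p u
  rw [hr] at h1
  have h3 : ((p • r) (Additive.ofMul u)) = p • (r (Additive.ofMul u)) := rfl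
  rw [h3] at h1
  exact h1.symm

end iter

section lem

variable {p : ℕ} {K' K L' L : Type} [Field K'] [Field K] [Field L'] [Field L] [Algebra K' K]
  [Algebra K' L'] [Algebra K L] [Algebra L' L] [Algebra K' L] [IsScalarTower K' K L]
  [IsScalarTower K' L' L]

/-- The two automorphisms are compatible. -/
theorem tau_comm {ζ D : K'} {s : K} (hq : IsKum p ζ D s) {τK : K ≃ₐ[K'] K} {τL : L ≃ₐ[L'] L}
    (hK : τK s = algebraMap K' K ζ * s)
    (hL : τL (algebraMap K L s) = algebraMap L' L (algebraMap K' L' ζ) * algebraMap K L s) (x : K) :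
    τL (algebraMap K L x) = algebraMap K L (τK x) := by
  have hx : x ∈ IntermediateField.adjoin K' {s} := by rw [hq.top]; trivial
  refine IntermediateField.adjoin_induction K'
    (p := fun x _ => τL (algebraMap K L x) = algebraMap K L (τK x)) ?_ ?_ ?_ ?_ ?_ hx
  · intro y hy
    rw [Set.mem_singleton_iff] at hy
    rw [hy, hL, hK, map_mul, ← IsScalarTower.algebraMap_apply K' K L,
      ← IsScalarTower.algebraMap_apply K' L' L]
  · intro y
    rw [← IsScalarTower.algebraMap_apply K' K L, IsScalarTower.algebraMap_apply K' L' L,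
      AlgEquiv.commutes, AlgEquiv.commutes, ← IsScalarTower.algebraMap_apply K' K L,
      ← IsScalarTower.algebraMap_apply K' L' L]
  · intro x y _ _ hx hy
    rw [map_add, map_add, hx, hy, map_add, map_add]
  · intro x _ hx
    rw [map_inv₀, map_inv₀, hx, map_inv₀, map_inv₀]
  · intro x y _ _ hx hy
    rw [map_mul, map_mul, hx, hy, map_mul, map_mul]

/-- The norm of the conjugate. -/
theorem norm_tau {τK : K ≃ₐ[K'] K} {τL : L ≃ₐ[L'] L}
    (hcomm : ∀ x : K, τL (algebraMap K L x) = algebraMap K L (τK x)) (z : L) :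
    Algebra.norm K (τL z) = τK (Algebra.norm K z) := by
  have h := Algebra.norm_eq_of_equiv_equiv (τK : K ≃+* K) (τL : L ≃+* L)
    (RingHom.ext fun x => (hcomm x).symm) z
  rw [h]
  exact (RingEquiv.apply_symm_apply (τK : K ≃+* K) _).symm

/-- The classes fixed by the Galois group come from the smaller field. -/
theorem fixed_class {n : ℕ} (hcop : p.Coprime n) {ζ D : K'} {s : K} (hq : IsKum p ζ D s)
    (hqL : IsKum p (algebraMap K' L' ζ) (algebraMap K' L' D) (algebraMap K L s))
    (hn : Module.finrank K' L' = n) [FiniteDimensional K' L'] [FiniteDimensional K L]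
    {τK : K ≃ₐ[K'] K} {τL : L ≃ₐ[L'] L} (hK : τK s = algebraMap K' K ζ * s)
    (hL : τL (algebraMap K L s) = algebraMap L' L (algebraMap K' L' ζ) * algebraMap K L s)
    [IsGalois L' L] (hgen : ∀ σ : L ≃ₐ[L'] L, σ ∈ Subgroup.zpowers τL)
    (hfix : ∀ x : L, τL x = x → ∃ a : L', algebraMap L' L a = x) {z : L} (hz : z ≠ 0) {u : K}
    (hu : Algebra.norm K z = u ^ p) {y : L} (hy : τL z = z * y ^ p) :
    ∃ (w : L') (ρ : L), w ≠ 0 ∧ ρ ≠ 0 ∧ z = algebraMap L' L w * ρ ^ p := by
  have hp := hq.prime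
  haveI : NeZero p := ⟨hp.ne_zero⟩
  haveI := hq.fin
  haveI := hqL.fin
  haveI : FiniteDimensional K' L := Module.Finite.trans L' L
  have hcomm := tau_comm (K := K) (L := L) hq hK hL
  have hy0 : y ≠ 0 := by
    rintro rfl
    rw [zero_pow hp.ne_zero, mul_zero] at hy
    exact (_root_.map_ne_zero τL).2 hz hy
  have hu0 : u ≠ 0 := by
    rintro rfl
    rw [zero_pow hp.ne_zero] at hu
    exact hz (Algebra.norm_eq_zero_iff.1 hu)
  -- the norm to `L'`
  have hNz : Algebra.norm L' z ≠ 0 := Algebra.norm_ne_zero_iff.2 hz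
  have hε : Algebra.norm L' y ^ p = 1 := by
    have h1 := congrArg (Algebra.norm L') hy
    rw [Algebra.norm_eq_of_algEquiv, map_mul, map_pow] at h1
    exact mul_left_cancel₀ hNz (by rw [mul_one]; exact h1.symm)
  -- the norm to `K`
  have hv0 : Algebra.norm K y ≠ 0 := Algebra.norm_ne_zero_iff.2 hy0
  have hv : (τK u / (u * Algebra.norm K y)) ^ p = 1 := by
    have h1 := congrArg (Algebra.norm K) hy
    rw [norm_tau hcomm, hu, map_pow, map_mul, map_pow, hu] at h1
    rw [div_pow, h1, mul_pow]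
    exact div_self (mul_ne_zero (pow_ne_zero _ hu0) (pow_ne_zero _ hv0))
  obtain ⟨j, -, hj⟩ := hq.rootK.eq_pow_of_pow_eq_one hv
  have hNu : Algebra.norm K' u ≠ 0 := Algebra.norm_ne_zero_iff.2 hu0
  have h1 : Algebra.norm K' (Algebra.norm K y) = 1 := by
    have h3 : algebraMap K' K ζ ^ j * (u * Algebra.norm K y) = τK u := by
      rw [hj, div_mul_cancel₀ _ (mul_ne_zero hu0 hv0)]
    have h4 := congrArg (Algebra.norm K') h3
    rw [Algebra.norm_eq_of_algEquiv, map_mul, map_mul, map_pow, Algebra.norm_algebraMap, hq.finrank,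
      hq.root.pow_eq_one, one_pow, one_mul] at h4
    exact mul_left_cancel₀ hNu (by rw [mul_one]; exact h4)
  have h3 : Algebra.norm K' (Algebra.norm L' y) = 1 := by
    rw [Algebra.norm_norm, ← Algebra.norm_norm (R := K') (S := K), h1]
  have hε1 : Algebra.norm L' y = 1 := by
    obtain ⟨a, -, ha⟩ := hqL.root.eq_pow_of_pow_eq_one hε
    rw [← ha, ← map_pow, Algebra.norm_algebraMap, hn] at h3
    have h4 : (ζ ^ a) ^ p = 1 := by rw [← pow_mul, mul_comm, pow_mul, hq.root.pow_eq_one, one_pow]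
    have h5 : ζ ^ a = 1 := by
      have h6 := pow_gcd_eq_one.2 ⟨h4, h3⟩
      rwa [hcop, pow_one] at h6
    rw [← ha, ← map_pow, h5, map_one]
  haveI : IsCyclic (L ≃ₐ[L'] L) := ⟨τL, hgen⟩
  obtain ⟨ρ, hρ⟩ := groupCohomology.exists_div_of_norm_eq_one hgen hε1
  have hρ0 : (ρ : L) ≠ 0 := ρ.ne_zero
  have hτρ : τL ρ ≠ 0 := (_root_.map_ne_zero τL).2 hρ0
  obtain ⟨w, hw⟩ := hfix (z * (ρ : L) ^ p) (by
    rw [map_mul, map_pow, hy, ← hρ, div_pow]
    field_simp)
  have hw0 : w ≠ 0 := by
    rintro rfl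
    rw [map_zero] at hw
    exact mul_ne_zero hz (pow_ne_zero _ hρ0) hw.symm
  refine ⟨w, (ρ : L)⁻¹, hw0, inv_ne_zero hρ0, ?_⟩
  rw [hw, inv_pow, mul_inv_cancel_right₀ (pow_ne_zero _ hρ0)]

/-- The normalization of the norm. -/
theorem norm_class {n : ℕ} (hcop : p.Coprime n) {ζ D : K'} {s : K} (hq : IsKum p ζ D s)
    (hqL : IsKum p (algebraMap K' L' ζ) (algebraMap K' L' D) (algebraMap K L s))
    (hn : Module.finrank K' L' = n) [FiniteDimensional K' L'] [FiniteDimensional K L]
    (hbase : ∀ w : L', Algebra.norm K (algebraMap L' L w) = algebraMap K' K (Algebra.norm K' w))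
    {z : L} {u : K} (hu : Algebra.norm K z = u ^ p) {w : L'} {ρ : L} (hw : w ≠ 0) (hρ : ρ ≠ 0)
    (hzw : z = algebraMap L' L w * ρ ^ p) :
    ∃ (w : L') (ρ : L) (c : K'), w ≠ 0 ∧ ρ ≠ 0 ∧ Algebra.norm K' w = c ^ p ∧
      z = algebraMap L' L w * ρ ^ p := by
  have hp := hq.prime
  haveI : NeZero p := ⟨hp.ne_zero⟩
  haveI : Fact p.Prime := ⟨hp⟩
  have hρn : Algebra.norm K ρ ≠ 0 := (Algebra.norm_ne_zero_iff).2 hρ
  have h1 : (u / Algebra.norm K ρ) ^ p = algebraMap K' K (Algebra.norm K' w) := by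
    rw [div_pow, ← hu, hzw, map_mul, map_pow, hbase]
    exact mul_div_cancel_right₀ _ (pow_ne_zero p hρn)
  obtain ⟨c, j, hc⟩ := hq.pow_base h1
  obtain ⟨i, e, hi⟩ : ∃ i e : ℕ, n * i + j = p * e := by
    have hn0 : (n : ZMod p) ≠ 0 := by
      rw [Ne, ZMod.natCast_eq_zero_iff]
      exact (Nat.Prime.coprime_iff_not_dvd hp).1 hcop
    refine ⟨(-(j : ZMod p) * (n : ZMod p)⁻¹).val, ?_⟩
    have h3 : p ∣ n * (-(j : ZMod p) * (n : ZMod p)⁻¹).val + j := by
      rw [← ZMod.natCast_eq_zero_iff]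
      push_cast
      rw [ZMod.natCast_zmod_val]
      field_simp
      ring
    exact h3
  have hD' : algebraMap K' L' D ≠ 0 := hqL.ne_zero
  have hs : algebraMap K L s ≠ 0 := hqL.s_ne
  refine ⟨w * algebraMap K' L' D ^ i, ρ / algebraMap K L s ^ i, c * D ^ e,
    mul_ne_zero hw (pow_ne_zero _ hD'), div_ne_zero hρ (pow_ne_zero _ hs), ?_, ?_⟩
  · rw [map_mul, map_pow, hc, Algebra.norm_algebraMap, hn, mul_pow, ← pow_mul, ← pow_mul, mul_assoc,
      ← pow_add, mul_comm e p, ← hi, add_comm]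
  · rw [hzw, map_mul, map_pow, ← hqL.pow, div_pow, ← pow_mul, ← pow_mul, mul_comm i p, mul_assoc,
      mul_div_cancel₀]
    exact pow_ne_zero _ hs

end lem

end Pool.Agent.Q45.TL
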