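import Pool.Agent.Q45.TL.Val

/-!
# Towers of cyclic extensions of degree `p` of the field `k(t)`
-/

set_option autoImplicit false
set_option linter.all false

open Polynomial IsDedekindDomain WithZero
open scoped Classical

namespace Pool.Agent.Q45.TL

open Pool.Agent.Q45.TW (cst ff ff_monic ff_natDegree ff_map)
open Pool.Agent.Q45.TT (FS FS.base exists_alg exists_ic exists_above frac_of_gen mem_closure_sub
  ff_alg irr_base sep_ff)

/-- The field `K` is generated over `k(t)` by successive `p`-th roots `s 0, …, s (m - 1)`. -/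
structure IsTower (p : ℕ) (k : Type) [Field k] (K : Type) [Field K] [Algebra k[X] K] (m : ℕ)
    (s : ℕ → K) : Prop where
  inj : Function.Injective (algebraMap k[X] K)
  pow : ∀ i < m, s i ^ p ∈ Subfield.closure (Set.range (algebraMap k[X] K) ∪ s '' {j | j < i})
  gen : Subfield.closure (Set.range (algebraMap k[X] K) ∪ s '' {j | j < m}) = ⊤

section tower

variable {p : ℕ} {k : Type} [Field k] {ζ : k}

/-- The induction principle for towers of cyclic extensions. -/
theorem IsTower.ind (hp : p.Prime) (hζ : IsPrimitiveRoot ζ p)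
    {M : ∀ (K : Type) [Field K] [Algebra k[X] K], Prop}
    (base : ∀ (K : Type) [Field K] [Algebra k[X] K], IsFractionRing k[X] K → M K)
    (step : ∀ (K' K : Type) [Field K'] [Field K] [Algebra k[X] K'] [Algebra k[X] K] [Algebra K' K]
      [IsScalarTower k[X] K' K] (D : K') (s : K), IsKum p (cst k K' ζ) D s →
      Function.Injective (algebraMap k[X] K') → (∃ m s', IsTower p k K' m s') → M K' → M K) :
    ∀ (m : ℕ) (K : Type) [Field K] [Algebra k[X] K] (s : ℕ → K), IsTower p k K m s → M K := by
  intro m
  induction m with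
  | zero =>
    intro K _ _ s h
    refine base K (frac_of_gen h.inj ?_)
    have h1 := h.gen
    have h3 : s '' {j | j < 0} = ∅ := by simp
    rw [h3, Set.union_empty] at h1
    exact h1
  | succ m ih =>
    intro K _ _ s h
    set S := Subfield.closure (Set.range (algebraMap k[X] K) ∪ s '' {j | j < m}) with hS
    have hpS : ∀ p, algebraMap k[X] K p ∈ S := fun p => Subfield.subset_closure (Or.inl ⟨p, rfl⟩)
    have hsS : ∀ j < m, s j ∈ S := fun j hj => Subfield.subset_closure (Or.inr ⟨j, hj, rfl⟩)
    by_cases hm : s m ∈ S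
    · refine ih K s ⟨h.inj, fun i hi => h.pow i (by omega), ?_⟩
      rw [eq_top_iff, ← h.gen, Subfield.closure_le]
      rintro x (⟨p, rfl⟩ | ⟨j, hj, rfl⟩)
      · exact hpS p
      · rcases Nat.lt_succ_iff_lt_or_eq.1 hj with h3 | rfl
        · exact hsS j h3
        · exact hm
    · letI : Algebra k[X] S := ((algebraMap k[X] K).codRestrict S hpS).toAlgebra
      haveI : IsScalarTower k[X] S K := IsScalarTower.of_algebraMap_eq fun p => rfl
      let s' : ℕ → S := fun j => if hj : s j ∈ S then ⟨s j, hj⟩ else 0
      have hs' : ∀ j < m, (s' j : K) = s j := by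
        intro j hj
        show ((if hj : s j ∈ S then (⟨s j, hj⟩ : S) else 0 : S) : K) = s j
        rw [dif_pos (hsS j hj)]
      have himg : ∀ i ≤ m, S.subtype '' (Set.range (algebraMap k[X] S) ∪ s' '' {j | j < i}) =
          Set.range (algebraMap k[X] K) ∪ s '' {j | j < i} := by
        intro i hi
        rw [Set.image_union]
        congr 1
        · rw [← Set.range_comp]
          rfl
        · ext x
          constructor
          · rintro ⟨_, ⟨j, hj, rfl⟩, rfl⟩
            exact ⟨j, hj, (hs' j (lt_of_lt_of_le hj hi)).symm⟩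
          · rintro ⟨j, hj, rfl⟩
            exact ⟨s' j, ⟨j, hj, rfl⟩, hs' j (lt_of_lt_of_le hj hi)⟩
      have htw : IsTower p k S m s' := by
        refine ⟨fun p q hpq => h.inj (congrArg S.subtype hpq), fun i hi => ?_, ?_⟩
        · apply mem_closure_sub
          rw [himg i hi.le]
          show (s' i : K) ^ p ∈ _
          rw [hs' i hi]
          exact h.pow i (by omega)
        · rw [eq_top_iff]
          rintro x -
          apply mem_closure_sub
          rw [himg m le_rfl]
          exact x.2
      have hD : s m ^ p ∈ S := h.pow m (by omega)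
      have hroot : IsPrimitiveRoot (cst k S ζ) p :=
        hζ.map_of_injective (f := cst k S) (cst k S).injective
      refine step S K ⟨s m ^ p, hD⟩ (s m) ⟨hp, hroot, rfl, fun x hx => hm ?_, ?_⟩ htw.inj
        ⟨m, s', htw⟩ (ih S s' htw)
      · rw [← hx]
        exact x.2
      · rw [eq_top_iff]
        rintro x -
        have h3 : (⊤ : Subfield K) ≤ (IntermediateField.adjoin S {s m}).toSubfield := by
          rw [← h.gen, Subfield.closure_le]
          rintro x (⟨p, rfl⟩ | ⟨j, hj, rfl⟩)
          · exact IntermediateField.algebraMap_mem _ (algebraMap k[X] S p)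
          · rcases Nat.lt_succ_iff_lt_or_eq.1 hj with h3 | rfl
            · exact IntermediateField.algebraMap_mem _ (⟨s j, hsS j h3⟩ : S)
            · exact IntermediateField.mem_adjoin_simple_self S _
        exact h3 (Subfield.mem_top x)

theorem IsTower.fs (hp : p.Prime) (hζ : IsPrimitiveRoot ζ p) {K : Type} [Field K] [Algebra k[X] K]
    {m : ℕ} {s : ℕ → K} (h : IsTower p k K m s) : FS k K := by
  refine IsTower.ind hp hζ (M := fun K _ _ => FS k K) (fun K _ _ hK => FS.base hK) ?_ m K s h
  intro K' K _ _ _ _ _ _ D s hq _ _ ih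
  exact ih.trans hq.fin hq.separable

/-- An irreducible polynomial of degree prime to `p` stays irreducible in an extension of degree
`p`. -/
theorem irr_up {K' K : Type} [Field K'] [Field K] [Algebra K' K] [FiniteDimensional K' K]
    (h2 : Module.finrank K' K = p) {f : K'[X]} (hm : f.Monic) (hcop : p.Coprime f.natDegree)
    (hpos : 0 < f.natDegree) (hirr : Irreducible f) : Irreducible (f.map (algebraMap K' K)) := by
  have hne : f.map (algebraMap K' K) ≠ 0 := (hm.map _).ne_zero
  have hnu : ¬ IsUnit (f.map (algebraMap K' K)) := by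
    intro h
    have h1 := natDegree_eq_zero_of_isUnit h
    rw [hm.natDegree_map] at h1
    omega
  obtain ⟨q, hq, hqd⟩ := WfDvdMonoid.exists_irreducible_factor hnu hne
  haveI : Fact (Irreducible q) := ⟨hq⟩
  have hq0 : q ≠ 0 := hq.ne_zero
  haveI : FiniteDimensional K (AdjoinRoot q) := (AdjoinRoot.powerBasis hq0).finite
  haveI : FiniteDimensional K' (AdjoinRoot q) := Module.Finite.trans K (AdjoinRoot q)
  have h1 : Module.finrank K (AdjoinRoot q) = q.natDegree := by
    rw [(AdjoinRoot.powerBasis hq0).finrank, AdjoinRoot.powerBasis_dim]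
  have h3 : Module.finrank K' (AdjoinRoot q) = p * q.natDegree := by
    rw [← Module.finrank_mul_finrank K' K (AdjoinRoot q), h2, h1]
  set η : AdjoinRoot q := AdjoinRoot.root q with hη
  have hroot : aeval η f = 0 := by
    obtain ⟨c, hc⟩ := hqd
    have h4 : aeval η (f.map (algebraMap K' K)) = 0 := by
      rw [hc, map_mul, AdjoinRoot.aeval_eq, AdjoinRoot.mk_self, zero_mul]
    rwa [aeval_map_algebraMap] at h4
  have hint : IsIntegral K' η := ⟨f, hm, hroot⟩
  have hmin : minpoly K' η = f := (minpoly.eq_of_irreducible_of_monic hirr hroot hm).symm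
  have h4 := IntermediateField.adjoin.finrank hint
  rw [hmin] at h4
  have h5 : f.natDegree ∣ p * q.natDegree := by
    rw [← h3, ← h4]
    exact ⟨_, (Module.finrank_mul_finrank K' (IntermediateField.adjoin K' {η}) (AdjoinRoot q)).symm⟩
  have h6 : f.natDegree ∣ q.natDegree := hcop.symm.dvd_of_dvd_mul_left h5
  have h7 : f.natDegree ≤ q.natDegree := Nat.le_of_dvd hq.natDegree_pos h6
  have h8 : Associated q (f.map (algebraMap K' K)) := by
    refine associated_of_dvd_of_natDegree_le hqd hne ?_
    rw [hm.natDegree_map]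
    exact h7
  exact h8.irreducible hq

variable {g : k[X]}

/-- The polynomial `g(x) + t` is irreducible over the tower. -/
theorem IsTower.irr (hp : p.Prime) (hζ : IsPrimitiveRoot ζ p) (hg : g.Monic)
    (hpos : 0 < g.natDegree) (hcop : p.Coprime g.natDegree) {K : Type} [Field K]
    [Algebra k[X] K] {m : ℕ} {s : ℕ → K} (h : IsTower p k K m s) : Irreducible (ff g K) := by
  refine IsTower.ind hp hζ (M := fun K _ _ => Irreducible (ff g K))
    (fun K _ _ hK => irr_base hg hpos hK) ?_ m K s h
  intro K' K _ _ _ _ _ _ D s hq _ _ ih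
  haveI := hq.fin
  rw [← ff_alg (K' := K') (K := K)]
  exact irr_up hq.finrank (ff_monic hg hpos) (by rwa [ff_natDegree hg hpos])
    (by rwa [ff_natDegree hg hpos]) ih

end tower

section pow

variable {p : ℕ} {k : Type} [Field k] {ζ : k}

/-- The residue degrees in a Galois extension of degree `p`. -/
theorem inertia_kum {A K B L : Type} [CommRing A] [IsDedekindDomain A] [Field K] [Algebra A K]
    [IsFractionRing A K] [CommRing B] [IsDedekindDomain B] [Field L] [Algebra B L]
    [IsFractionRing B L] [Algebra K L] [Algebra A B] [Algebra A L] [IsScalarTower A K L]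
    [IsScalarTower A B L] [Module.IsTorsionFree A B] [Module.Finite A B] [FiniteDimensional K L]
    [IsGalois K L] (w : HeightOneSpectrum B) : w.asIdeal.inertiaDeg A ∣ Module.finrank K L := by
  haveI : Algebra.IsIntegral A B := Algebra.IsIntegral.of_finite A B
  haveI : IsIntegralClosure B A L := IsIntegralClosure.of_isIntegrallyClosed B A L
  letI : MulSemiringAction (L ≃ₐ[K] L) B := IsIntegralClosure.MulSemiringAction A K L B
  haveI : IsGaloisGroup (L ≃ₐ[K] L) A B := IsGaloisGroup.of_isFractionRing _ _ _ K L
  set v := w.under A with hv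
  haveI := v.isPrime
  haveI := w.isPrime
  haveI hlo : w.asIdeal.LiesOver v.asIdeal := ⟨rfl⟩
  have h1 := Ideal.ncard_primesOver_mul_ramificationIdxIn_mul_inertiaDegIn v.asIdeal B (L ≃ₐ[K] L)
  rw [Ideal.inertiaDegIn_eq_inertiaDeg v.asIdeal w.asIdeal (L ≃ₐ[K] L),
    IsGalois.card_aut_eq_finrank] at h1
  rw [← h1]
  exact Dvd.intro_left _ (by rw [← mul_assoc])

/-- The residue degrees are powers of `p`. -/
theorem IsTower.resPow (hp : p.Prime) (hζ : IsPrimitiveRoot ζ p) {K : Type} [Field K]
    [Algebra k[X] K] {m : ℕ} {s : ℕ → K} (h : IsTower p k K m s) :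
    ∀ (A : Type) [CommRing A] [Algebra k[X] A] [Algebra A K]
    [IsScalarTower k[X] A K] [IsIntegralClosure A k[X] K] (v : HeightOneSpectrum A),
    ∃ j : ℕ, v.asIdeal.inertiaDeg k[X] = p ^ j := by
  refine IsTower.ind hp hζ (M := fun K _ _ => ∀ (A : Type) [CommRing A] [Algebra k[X] A]
    [Algebra A K] [IsScalarTower k[X] A K] [IsIntegralClosure A k[X] K] (v : HeightOneSpectrum A),
    ∃ j : ℕ, v.asIdeal.inertiaDeg k[X] = p ^ j) ?_ ?_ m K s h
  · intro K _ _ hK A _ _ _ _ _ v
    have hfs : FS k K := FS.base hK
    haveI := hfs.ded A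
    haveI := hfs.frac A
    haveI := hfs.finite A
    haveI : Module.IsTorsionFree k[X] A := by
      rw [Module.isTorsionFree_iff_algebraMap_injective]
      exact hfs.injB A
    haveI : Algebra.IsIntegral k[X] A := Algebra.IsIntegral.of_finite k[X] A
    obtain ⟨h1, h3⟩ := TT.inertia_le (A := k[X]) (B := A) v
    have h4 : Module.finrank k[X] A = 1 := by
      rw [← IsFractionRing.finrank_eq k[X] K A K, Module.finrank_self]
    refine ⟨0, ?_⟩
    rw [h4] at h1
    rw [pow_zero]
    omega
  · intro K' K _ _ _ _ _ _ D s hq hinj htw ih A _ _ _ _ _ v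
    obtain ⟨m', s', htw⟩ := htw
    have hfs' : FS k K' := htw.fs hp hζ
    have hfs : FS k K := hfs'.trans hq.fin hq.separable
    obtain ⟨A', a1, a2, a3, a4, a5⟩ := exists_ic (k := k) K'
    obtain ⟨φ, hφ1, hφ2⟩ := exists_alg (k := k) (K' := K') (K := K) A' A
    letI : Algebra A' A := φ.toAlgebra
    haveI : IsScalarTower k[X] A' A := IsScalarTower.of_algebraMap_eq fun p => (hφ2 p).symm
    haveI := hfs.ded A
    haveI := hfs.frac A
    haveI := hfs.finite A
    haveI := hfs'.ded A'
    haveI := hfs'.frac A'
    haveI : Module.Finite A' A := Module.Finite.of_restrictScalars_finite k[X] A' A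
    haveI : Algebra.IsIntegral A' A := Algebra.IsIntegral.of_finite A' A
    haveI : Module.IsTorsionFree A' A := by
      rw [Module.isTorsionFree_iff_algebraMap_injective]
      exact TT.tf_of (K' := K') (K := K) (IsFractionRing.injective A' K') hφ1
    haveI hlo : v.asIdeal.LiesOver (v.under A').asIdeal := ⟨rfl⟩
    letI : Algebra A' K := ((algebraMap K' K).comp (algebraMap A' K')).toAlgebra
    haveI : IsScalarTower A' K' K := IsScalarTower.of_algebraMap_eq fun _ => rfl
    haveI : IsScalarTower A' A K := IsScalarTower.of_algebraMap_eq fun a => (hφ1 a).symm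
    haveI := hq.fin
    obtain ⟨τ, -, hgal, -⟩ := hq.exists_tau
    haveI := hgal
    have h1 := inertia_kum (A := A') (K := K') (L := K) v
    rw [hq.finrank] at h1
    obtain ⟨j, hj⟩ := ih A' (v.under A')
    have h5 := Ideal.inertiaDeg_tower (R := k[X]) (v.under A').asIdeal v.asIdeal
    rw [h5, hj]
    rcases (Nat.dvd_prime hp).1 h1 with h6 | h6
    · exact ⟨j, by rw [h6, mul_one]⟩
    · exact ⟨j + 1, by rw [h6, pow_succ]⟩

end pow

end Pool.Agent.Q45.TL
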