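import Pool.Agent.Q45.TL.Kum

/-!
# Valuations in cyclic extensions of prime degree
-/

set_option autoImplicit false
set_option linter.all false

open Polynomial IsDedekindDomain WithZero
open scoped Classical

namespace Pool.Agent.Q45.TL

open Pool.Agent.Y160.SE (IsPw)
open Pool.Agent.Q45.TT (val_under val_norm)

section ring

variable {p : ℕ} {A K B L : Type} [CommRing A] [IsDedekindDomain A] [Field K] [Algebra A K]
  [IsFractionRing A K] [CommRing B] [IsDedekindDomain B] [Field L] [Algebra B L] [IsFractionRing B L]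
  [Algebra K L] [Algebra A B] [Algebra A L] [IsScalarTower A K L] [IsScalarTower A B L]
  [Module.IsTorsionFree A B]

/-- A class with valuation divisible by `p` contains a unit at the place. -/
theorem unit_rep (hp : p ≠ 0) (v : HeightOneSpectrum A) {D : K} (hD : D ≠ 0)
    (hev : IsPw p (v.valuation K D)) :
    ∃ (d : A) (c : K), c ≠ 0 ∧ D * c ^ p = algebraMap A K d ∧ v.intValuation d = 1 := by
  obtain ⟨δ, hδ⟩ := hev
  have hδ0 : δ ≠ 0 := by
    rintro rfl
    rw [zero_pow hp] at hδ
    exact (Valuation.ne_zero_iff _).2 hD hδ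
  obtain ⟨m, hm⟩ : ∃ m : ℤ, δ = exp m := ⟨_, (exp_log hδ0).symm⟩
  obtain ⟨π, hπ⟩ := v.valuation_exists_uniformizer K
  have hπ0 : π ≠ 0 := by
    rintro rfl
    rw [map_zero] at hπ
    exact exp_ne_zero hπ.symm
  have h1 : v.valuation K (D * (π ^ m) ^ p) = 1 := by
    rw [map_mul, map_pow, map_zpow₀, hπ, hδ, hm, ← mul_pow, ← exp_zsmul, ← exp_add]
    have h3 : m + m • (-1 : ℤ) = 0 := by
      rw [zsmul_eq_mul, Int.cast_id]
      ring
    rw [h3, exp_zero, one_pow]
  obtain ⟨r, e, hre⟩ := v.exists_primeCompl_mul_eq_of_integer _ h1.le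
  have he : v.intValuation (e : A) = 1 := (v.intValuation_eq_one_iff_mem_primeCompl _).2 e.2
  have he0 : (e : A) ≠ 0 := by
    intro h0
    rw [h0, map_zero] at he
    exact zero_ne_one he
  have heK : algebraMap A K (e : A) ≠ 0 := fun h => he0 (IsFractionRing.injective A K (by
    rw [h, map_zero]))
  have hr : v.intValuation r = 1 := by
    have h3 := congrArg (v.valuation K) hre
    rw [map_mul, h1, one_mul, v.valuation_of_algebraMap, v.valuation_of_algebraMap, he] at h3
    exact h3.symm
  refine ⟨r * (e : A) ^ (p - 1), π ^ m * algebraMap A K (e : A),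
    mul_ne_zero (zpow_ne_zero _ hπ0) heK, ?_, ?_⟩
  · rw [map_mul, map_pow, ← hre, mul_pow]
    obtain ⟨q, rfl⟩ : ∃ q, p = q + 1 := ⟨p - 1, by omega⟩
    rw [Nat.add_sub_cancel, pow_succ (algebraMap A K (e : A))]
    ring
  · rw [map_mul, map_pow, hr, he, one_pow, one_mul]

/-- A cyclic extension by a root of an element with valuation divisible by `p` is unramified. -/
theorem ram_one [Module.Finite A B] {ζ D : K} {s : L} (h : IsKum p ζ D s) (h2 : IsUnit (p : A))
    (w : HeightOneSpectrum B) (hev : IsPw p ((w.under A).valuation K D)) :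
    (w.under A).asIdeal.ramificationIdx' w.asIdeal = 1 := by
  haveI : Algebra.IsIntegral A B := Algebra.IsIntegral.of_finite A B
  haveI := h.fin
  haveI := h.separable
  have hp := h.prime.ne_zero
  set v := w.under A with hv
  haveI hlo : w.asIdeal.LiesOver v.asIdeal := ⟨rfl⟩
  haveI : v.asIdeal.IsMaximal := v.isMaximal
  obtain ⟨d, c, hc, hcd, hdv⟩ := unit_rep hp v h.ne_zero hev
  have hsq : (algebraMap K L c * s) ^ p = algebraMap B L (algebraMap A B d) := by
    rw [mul_pow, h.pow, ← map_pow, ← map_mul, mul_comm, hcd, ← IsScalarTower.algebraMap_apply A K L,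
      ← IsScalarTower.algebraMap_apply A B L]
  obtain ⟨t, ht⟩ : ∃ t : B, algebraMap B L t = algebraMap K L c * s := by
    apply (IsIntegrallyClosed.isIntegral_iff (K := L)).1
    refine IsIntegral.of_pow (n := p) h.prime.pos ?_
    rw [hsq]
    exact isIntegral_algebraMap
  have ht2 : t ^ p = algebraMap A B d := by
    apply IsFractionRing.injective B L
    rw [map_pow, ht, hsq]
  have htw : t ∉ w.asIdeal := by
    intro h1
    have h3 : algebraMap A B d ∈ w.asIdeal := by
      rw [← ht2]
      exact Ideal.pow_mem_of_mem _ h1 p h.prime.pos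
    have h4 : d ∈ v.asIdeal := h3
    exact (v.intValuation_eq_one_iff).1 hdv h4
  -- the minimal polynomial
  have hirr : Irreducible (X ^ p - C (algebraMap A K d) : K[X]) := by
    refine X_pow_sub_C_irreducible_of_prime h.prime fun b hb => ?_
    refine h.not_pow (b / c) ?_
    rw [div_pow, hb, ← hcd, mul_div_assoc, div_self (pow_ne_zero _ hc), mul_one]
  have hroot : aeval (algebraMap B L t) (X ^ p - C (algebraMap A K d) : K[X]) = 0 := by
    rw [map_sub, map_pow, aeval_X, aeval_C, ht, hsq, ← IsScalarTower.algebraMap_apply A K L,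
      ← IsScalarTower.algebraMap_apply A B L, sub_self]
  have hminK : minpoly K (algebraMap B L t) = X ^ p - C (algebraMap A K d) :=
    (minpoly.eq_of_irreducible_of_monic hirr hroot (mon hp _)).symm
  have hint : IsIntegral A t := Algebra.IsIntegral.isIntegral t
  have hmin : minpoly A t = X ^ p - C d := by
    have h1 := minpoly.isIntegrallyClosed_eq_field_fractions K L hint
    rw [hminK] at h1
    apply map_injective (algebraMap A K) (IsFractionRing.injective A K)
    rw [← h1, Polynomial.map_sub, Polynomial.map_pow, map_X, map_C]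
  have htop : Algebra.adjoin K {algebraMap B L t} = ⊤ := by
    have hi : IsIntegral K (algebraMap B L t) := ⟨_, mon hp _, hroot⟩
    have h3 := IntermediateField.adjoin_simple_toSubalgebra_of_isAlgebraic hi.isAlgebraic
    have h4 : IntermediateField.adjoin K {algebraMap B L t} = ⊤ := by
      rw [eq_top_iff, ← h.top, IntermediateField.adjoin_simple_le_iff]
      have h5 : s = (algebraMap K L c)⁻¹ * algebraMap B L t := by
        rw [ht, inv_mul_cancel_left₀ ((_root_.map_ne_zero _).2 hc)]
      rw [h5, ← map_inv₀]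
      exact mul_mem (IntermediateField.algebraMap_mem _ _) (IntermediateField.mem_adjoin_simple_self K _)
    rw [h4] at h3
    exact h3.symm
  have hmem := aeval_derivative_mem_differentIdeal A K L t htop
  have hder : derivative (X ^ p - C d : A[X]) = C (p : A) * X ^ (p - 1) := by
    rw [derivative_sub, derivative_C, sub_zero, derivative_X_pow]
  rw [hmin, hder, map_mul, aeval_C, map_pow, aeval_X] at hmem
  by_contra hne
  have hle : v.asIdeal.map (algebraMap A B) ≤ w.asIdeal := by
    rw [Ideal.map_le_iff_le_comap]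
    exact le_of_eq hlo.over
  have h3 := (Ideal.ramificationIdx'_ne_one_iff hle).1 hne
  have h4 : w.asIdeal ^ 2 ∣ v.asIdeal.map (algebraMap A B) := Ideal.dvd_iff_le.2 h3
  have h5 := pow_sub_one_dvd_differentIdeal_aux K L (A := A) (B := B) w.asIdeal (e := 2) (by norm_num)
    v.ne_bot h4
  have h6 : algebraMap A B (p : A) * t ^ (p - 1) ∈ w.asIdeal := by
    have h7 := Ideal.dvd_iff_le.1 h5 hmem
    norm_num at h7 ⊢
    exact h7
  rcases w.isPrime.mem_or_mem h6 with h7 | h7
  · exact w.isPrime.ne_top (Ideal.eq_top_of_isUnit_mem _ h7 (h2.map (algebraMap A B)))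
  · exact htw (w.isPrime.mem_of_pow_mem _ h7)

/-- If `D` has valuation prime to `p`, then the extension by a root of `D` is ramified. -/
theorem ram_of_odd [Algebra.IsIntegral A B] {ζ D : K} {s : L} (h : IsKum p ζ D s)
    (w : HeightOneSpectrum B) (hodd : ¬ IsPw p ((w.under A).valuation K D)) :
    (w.under A).asIdeal.map (algebraMap A B) ≤ w.asIdeal ^ 2 := by
  have hle : (w.under A).asIdeal.map (algebraMap A B) ≤ w.asIdeal := by
    rw [Ideal.map_le_iff_le_comap]
    exact le_rfl
  refine (Ideal.ramificationIdx'_ne_one_iff hle).1 fun he => hodd ?_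
  have h1 := val_under (A := A) (L := L) w D
  rw [he, pow_one, ← h.pow, map_pow] at h1
  rw [← h1]
  exact IsPw.self _

/-- Descent of the divisibility of the valuation. -/
theorem even_down [Module.Finite A B] {ζ D : K} {s : L} (h : IsKum p ζ D s) (h2 : IsUnit (p : A))
    (v : HeightOneSpectrum A) (hev : IsPw p (v.valuation K D)) {x : K}
    (hx : ∀ w : HeightOneSpectrum B, IsPw p (w.valuation L (algebraMap K L x))) :
    IsPw p (v.valuation K x) := by
  haveI : Algebra.IsIntegral A B := Algebra.IsIntegral.of_finite A B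
  obtain ⟨w, rfl⟩ := TT.exists_above (B := B) v
  have h1 := hx w
  rwa [val_under (A := A), ram_one h h2 w hev, pow_one] at h1

end ring

section inert

variable {p : ℕ} {A B : Type} [CommRing A] [IsDedekindDomain A] [CommRing B] [IsDedekindDomain B]
  [Algebra A B] [Module.IsTorsionFree A B] [Module.Finite A B]
  {K L : Type} [Field K] [Algebra A K] [IsFractionRing A K] [Field L] [Algebra B L]
  [IsFractionRing B L] [Algebra K L] [Algebra A L] [IsScalarTower A K L] [IsScalarTower A B L]

/-- Powers with an exponent prime to `p`. -/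
theorem pw_of_pow {n : ℕ} (hp : p ≠ 0) (hcop : n.Coprime p) {γ : WithZero (Multiplicative ℤ)}
    (h : IsPw p (γ ^ n)) : IsPw p γ := by
  rcases eq_or_ne γ 0 with rfl | hγ
  · exact ⟨0, (zero_pow hp).symm⟩
  obtain ⟨δ, hδ⟩ := h
  have hδ0 : δ ≠ 0 := by
    rintro rfl
    rw [zero_pow hp] at hδ
    exact pow_ne_zero n hγ hδ
  -- Bezout
  have h1 : (n : ℤ) * n.gcdA p + p * n.gcdB p = 1 := by
    have h3 := Nat.gcd_eq_gcd_ab n p
    rw [hcop] at h3
    exact_mod_cast h3.symm
  refine ⟨δ ^ (n.gcdA p) * γ ^ (n.gcdB p), ?_⟩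
  rw [mul_pow, ← zpow_natCast, ← zpow_natCast (γ ^ _), ← zpow_mul, ← zpow_mul, mul_comm (n.gcdA p),
    zpow_mul, zpow_natCast, ← hδ, ← zpow_natCast, ← zpow_mul, ← zpow_add₀ hγ, mul_comm (n.gcdB p),
    h1, zpow_one]

/-- Elements whose norm is a `p`-th power have valuation divisible by `p` at inert primes of degree
prime to `p`. -/
theorem even_inert (hp : p ≠ 0) (v : HeightOneSpectrum A) (w : HeightOneSpectrum B)
    (hvw : v.asIdeal.map (algebraMap A B) = w.asIdeal) [FiniteDimensional K L]
    (hcop : (Module.finrank K L).Coprime p) {z : L} {m : K} (hm : Algebra.norm K z = m ^ p) :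
    IsPw p (w.valuation L z) := by
  have h1 := val_norm (K := K) (L := L) v w hvw z
  rw [hm, map_pow] at h1
  exact pw_of_pow hp hcop ⟨_, h1.symm⟩

end inert

end Pool.Agent.Q45.TL
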